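import Mathlib

/-!
General facts about edge cuts in a finite cubic graph and an uncrossing criterion: if every vertex
outside finitely many pieces of cut size six behaves well then every cut with at most five edges
is trivial.
-/

namespace Q107.Snark

open Finset

variable {V : Type*} [Fintype V] [DecidableEq V] (G : SimpleGraph V) [DecidableRel G.Adj]

/-- number of edges leaving `U` -/
def cut (U : Finset V) : ℕ := #{p : V × V | G.Adj p.1 p.2 ∧ p.1 ∈ U ∧ p.2 ∉ U}

/-- number of ordered adjacent pairs from `X` to `T` -/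
def ee (X T : Finset V) : ℕ := #{p : V × V | G.Adj p.1 p.2 ∧ p.1 ∈ X ∧ p.2 ∈ T}

lemma ee_comm (X T : Finset V) : ee G X T = ee G T X := by
  unfold ee
  refine Finset.card_nbij' Prod.swap Prod.swap ?_ ?_ (fun _ _ => rfl) (fun _ _ => rfl)
  · rintro ⟨a, b⟩ h
    simp only [coe_filter, mem_univ, true_and, Set.mem_ofPred_eq, Prod.swap_prod_mk] at h ⊢
    exact ⟨h.1.symm, h.2.2, h.2.1⟩
  · rintro ⟨a, b⟩ h
    simp only [coe_filter, mem_univ, true_and, Set.mem_ofPred_eq, Prod.swap_prod_mk] at h ⊢
    exact ⟨h.1.symm, h.2.2, h.2.1⟩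

lemma cut_compl (U : Finset V) : cut G Uᶜ = cut G U := by
  unfold cut
  refine Finset.card_nbij' Prod.swap Prod.swap ?_ ?_ (fun _ _ => rfl) (fun _ _ => rfl)
  · rintro ⟨a, b⟩ h
    simp only [coe_filter, mem_univ, true_and, Set.mem_ofPred_eq, Prod.swap_prod_mk, mem_compl,
      not_not] at h ⊢
    exact ⟨h.1.symm, h.2.2, h.2.1⟩
  · rintro ⟨a, b⟩ h
    simp only [coe_filter, mem_univ, true_and, Set.mem_ofPred_eq, Prod.swap_prod_mk, mem_compl,
      not_not] at h ⊢
    exact ⟨h.1.symm, h.2.2, h.2.1⟩

lemma cut_submod (U B : Finset V) : cut G (U ∪ B) + cut G (U ∩ B) ≤ cut G U + cut G B := by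
  unfold cut
  rw [card_filter, card_filter, card_filter, card_filter, ← sum_add_distrib, ← sum_add_distrib]
  refine sum_le_sum ?_
  rintro ⟨a, b⟩ -
  by_cases h : G.Adj a b <;> by_cases ha : a ∈ U <;> by_cases hb : b ∈ U <;>
    by_cases ha' : a ∈ B <;> by_cases hb' : b ∈ B <;> simp [h, ha, hb, ha', hb']

lemma cut_disj {X T : Finset V} (h : Disjoint X T) :
    cut G (X ∪ T) + 2 * ee G X T = cut G X + cut G T := by
  have h1 : 2 * ee G X T = ee G X T + ee G T X := by rw [ee_comm G T X]; ring
  rw [h1]
  unfold cut ee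
  rw [card_filter, card_filter, card_filter, card_filter, card_filter, ← sum_add_distrib,
    ← sum_add_distrib, ← sum_add_distrib]
  refine sum_congr rfl ?_
  rintro ⟨a, b⟩ -
  have hd : ∀ z, z ∈ X → z ∉ T := fun z hz hz' => (Finset.disjoint_left.mp h) hz hz'
  by_cases h : G.Adj a b <;> by_cases ha : a ∈ X <;> by_cases hb : b ∈ X <;>
    by_cases ha' : a ∈ T <;> by_cases hb' : b ∈ T <;> simp [h, ha, hb, ha', hb'] <;>
    first
      | exact hd _ ha ha'
      | exact hd _ hb hb'

lemma cut_add_ee (hcub : ∀ v, G.degree v = 3) (S : Finset V) : cut G S + ee G S S = 3 * #S := by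
  have h1 : cut G S + ee G S S = #{p : V × V | G.Adj p.1 p.2 ∧ p.1 ∈ S} := by
    unfold cut ee
    rw [card_filter, card_filter, card_filter, ← sum_add_distrib]
    refine sum_congr rfl ?_
    rintro ⟨a, b⟩ -
    by_cases h : G.Adj a b <;> by_cases ha : a ∈ S <;> by_cases hb : b ∈ S <;> simp [h, ha, hb]
  rw [h1]
  have h2 : ({p : V × V | G.Adj p.1 p.2 ∧ p.1 ∈ S} : Finset (V × V))
      = (S.sigma (fun v => G.neighborFinset v)).map
        ⟨fun x => (x.1, x.2), fun x y h => by
          rcases x with ⟨a, b⟩; rcases y with ⟨c, d⟩; simp at h; obtain ⟨rfl, rfl⟩ := h; rfl⟩ := by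
    ext ⟨a, b⟩
    simp only [mem_filter, mem_univ, true_and, Finset.mem_map, mem_sigma,
      SimpleGraph.mem_neighborFinset, Sigma.exists]
    constructor
    · rintro ⟨h, ha⟩; exact ⟨a, b, ⟨ha, h⟩, rfl⟩
    · rintro ⟨c, d, ⟨hc, hd⟩, h⟩
      obtain ⟨rfl, rfl⟩ := Prod.mk.inj h
      exact ⟨hd, hc⟩
  rw [h2, card_map, card_sigma]
  simp only [SimpleGraph.card_neighborFinset_eq_degree, hcub, sum_const, smul_eq_mul]
  ring

lemma cut_empty : cut G ∅ = 0 := by simp [cut]

lemma ee_le_card {X T : Finset V} (h : ∀ t ∈ T, ∀ a ∈ X, ∀ b ∈ X, G.Adj t a → G.Adj t b → a = b) :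
    ee G T X ≤ #T := by
  unfold ee
  refine Finset.card_le_card_of_injOn Prod.fst ?_ ?_
  · rintro ⟨a, b⟩ hp
    simp only [coe_filter, mem_univ, true_and, Set.mem_ofPred_eq] at hp
    exact hp.2.1
  · rintro ⟨a, b⟩ hp ⟨c, d⟩ hq hpq
    simp only [coe_filter, mem_univ, true_and, Set.mem_ofPred_eq] at hp hq hpq
    subst hpq
    rw [h a hp.2.1 b hp.2.2 d hq.2.2 hp.1 hq.1]

/-- if `#T` ordered pairs go from `T` to `X` and every vertex of `T` has at most one neighbour in
`X` then every vertex of `T` has one -/
lemma exists_of_ee_eq {X T : Finset V}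
    (h : ∀ t ∈ T, ∀ a ∈ X, ∀ b ∈ X, G.Adj t a → G.Adj t b → a = b) (he : #T ≤ ee G T X) :
    ∀ t ∈ T, ∃ a ∈ X, G.Adj t a := by
  intro t ht
  by_contra hcon
  push Not at hcon
  have h1 : ee G T X = ee G (T.erase t) X := by
    unfold ee
    congr 1
    ext ⟨a, b⟩
    simp only [mem_filter, mem_univ, true_and, mem_erase]
    constructor
    · rintro ⟨h1, h2, h3⟩
      refine ⟨h1, ⟨?_, h2⟩, h3⟩
      rintro rfl
      exact hcon b h3 h1
    · rintro ⟨h1, ⟨_, h2⟩, h3⟩
      exact ⟨h1, h2, h3⟩
  have h2 := ee_le_card G (X := X) (T := T.erase t) (fun s hs => h s (mem_of_mem_erase hs))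
  rw [card_erase_of_mem ht] at h2
  have h3 : 0 < #T := card_pos.mpr ⟨t, ht⟩
  omega

/-- three vertices spanning at least two edges contain a path through all three -/
lemma path_of_three {T : Finset V} (hT : #T = 3) (h : 4 ≤ ee G T T) :
    ∃ t1 ∈ T, ∃ t2 ∈ T, ∃ t3 ∈ T, t1 ≠ t3 ∧ G.Adj t1 t2 ∧ G.Adj t2 t3 := by
  obtain ⟨a, b, c, hab, hac, hbc, rfl⟩ := card_eq_three.mp hT
  by_contra hcon
  push Not at hcon
  have key : ee G {a, b, c} {a, b, c} ≤ 2 := by
    have h1 : G.Adj a b → ¬ G.Adj b c := fun h1 => hcon a (by simp) b (by simp) c (by simp) hac h1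
    have h2 : G.Adj b a → ¬ G.Adj a c := fun h1 => hcon b (by simp) a (by simp) c (by simp) hbc h1
    have h3 : G.Adj a c → ¬ G.Adj c b := fun h1 => hcon a (by simp) c (by simp) b (by simp) hab h1
    unfold ee
    by_cases e1 : G.Adj a b
    · have e2 := h1 e1
      have e3 := h2 e1.symm
      have : ({p : V × V | G.Adj p.1 p.2 ∧ p.1 ∈ ({a, b, c} : Finset V) ∧
          p.2 ∈ ({a, b, c} : Finset V)} : Finset (V × V)) ⊆ {(a, b), (b, a)} := by
        rintro ⟨x, y⟩ hp
        simp only [mem_filter, mem_univ, true_and, mem_insert, mem_singleton] at hp ⊢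
        obtain ⟨hadj, hx, hy⟩ := hp
        rcases hx with rfl | rfl | rfl <;> rcases hy with rfl | rfl | rfl <;>
          first
            | exact absurd hadj (G.irrefl)
            | (left; rfl)
            | (right; rfl)
            | exact absurd hadj e2
            | exact absurd hadj.symm e2
            | exact absurd hadj e3
            | exact absurd hadj.symm e3
      exact (card_le_card this).trans (card_le_two)
    · by_cases e2 : G.Adj a c
      · have e3 := h3 e2
        have : ({p : V × V | G.Adj p.1 p.2 ∧ p.1 ∈ ({a, b, c} : Finset V) ∧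
            p.2 ∈ ({a, b, c} : Finset V)} : Finset (V × V)) ⊆ {(a, c), (c, a)} := by
          rintro ⟨x, y⟩ hp
          simp only [mem_filter, mem_univ, true_and, mem_insert, mem_singleton] at hp ⊢
          obtain ⟨hadj, hx, hy⟩ := hp
          rcases hx with rfl | rfl | rfl <;> rcases hy with rfl | rfl | rfl <;>
            first
              | exact absurd hadj (G.irrefl)
              | (left; rfl)
              | (right; rfl)
              | exact absurd hadj e1
              | exact absurd hadj.symm e1
              | exact absurd hadj e3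
              | exact absurd hadj.symm e3
        exact (card_le_card this).trans (card_le_two)
      · have : ({p : V × V | G.Adj p.1 p.2 ∧ p.1 ∈ ({a, b, c} : Finset V) ∧
            p.2 ∈ ({a, b, c} : Finset V)} : Finset (V × V)) ⊆ {(b, c), (c, b)} := by
          rintro ⟨x, y⟩ hp
          simp only [mem_filter, mem_univ, true_and, mem_insert, mem_singleton] at hp ⊢
          obtain ⟨hadj, hx, hy⟩ := hp
          rcases hx with rfl | rfl | rfl <;> rcases hy with rfl | rfl | rfl <;>
            first
              | exact absurd hadj (G.irrefl)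
              | (left; rfl)
              | (right; rfl)
              | exact absurd hadj e1
              | exact absurd hadj.symm e1
              | exact absurd hadj e2
              | exact absurd hadj.symm e2
        exact (card_le_card this).trans (card_le_two)
  omega

section Star

variable (hcub : ∀ v, G.degree v = 3) {ι : Type*} [Fintype ι] (B : ι → Finset V)
  (hdisj : ∀ i j, i ≠ j → Disjoint (B i) (B j))
  (hcard : ∀ i, 7 ≤ #(B i)) (h6 : ∀ i, cut G (B i) = 6)
  (hL4 : ∀ i, ∀ W ⊆ B i, 4 ≤ #W → 6 ≤ cut G W)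
  (hP2 : ∀ i, ∀ v ∉ B i, ∀ a ∈ B i, ∀ b ∈ B i, G.Adj v a → G.Adj v b → a = b)
  (hP3 : ∀ i, ∀ t1 t2 t3, t1 ∉ B i → t2 ∉ B i → t3 ∉ B i → t1 ≠ t3 → G.Adj t1 t2 → G.Adj t2 t3 →
    (∃ a ∈ B i, G.Adj t1 a) → (∃ a ∈ B i, G.Adj t2 a) → (∃ a ∈ B i, G.Adj t3 a) → False)
  (hF : ∀ S : Finset V, S.Nonempty → #S ≤ 5 → #S + 2 ≤ cut G S)

include hcub hcard h6 hL4 hP2 hP3 hF in
omit [Fintype ι] in
lemma star_step (i : ι) (U : Finset V) (hU : cut G U ≤ 5) (hW : 4 ≤ #(U ∩ B i))
    (IH : cut G (U ∪ B i) ≤ 5 → #(U ∪ B i) ≤ 3 ∨ #(U ∪ B i)ᶜ ≤ 3) : #Uᶜ ≤ 3 := by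
  have hsub := cut_submod G U (B i)
  have hW6 := hL4 i (U ∩ B i) inter_subset_right hW
  rw [h6 i] at hsub
  have hc5 : cut G (U ∪ B i) ≤ 5 := by omega
  have hbig : 7 ≤ #(U ∪ B i) := (hcard i).trans (card_le_card subset_union_right)
  have hT3 : #(U ∪ B i)ᶜ ≤ 3 := by
    rcases IH hc5 with h | h
    · omega
    · exact h
  set T := (U ∪ B i)ᶜ with hTdef
  set X := B i \ U with hXdef
  have hUc : Uᶜ = X ∪ T := by
    ext v
    simp only [mem_compl, hXdef, hTdef, mem_union, mem_sdiff]
    tauto
  have hXT : Disjoint X T := by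
    rw [Finset.disjoint_left]
    intro v hv hv'
    simp only [hXdef, hTdef, mem_sdiff, mem_compl, mem_union] at hv hv'
    tauto
  have hXB : X ⊆ B i := sdiff_subset
  have hTB : ∀ t ∈ T, t ∉ B i := by
    intro t ht
    simp only [hTdef, mem_compl, mem_union] at ht
    tauto
  have hcardU : #Uᶜ = #X + #T := by rw [hUc, card_union_of_disjoint hXT]
  by_contra hcon
  push Not at hcon
  have hcutc : cut G Uᶜ ≤ 5 := by rw [cut_compl]; exact hU
  have h6' : 6 ≤ #X + #T := by
    by_contra hlt
    push Not at hlt
    have := hF Uᶜ (card_pos.mp (by omega)) (by omega)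
    omega
  have hone : ∀ t ∈ T, ∀ a ∈ X, ∀ b ∈ X, G.Adj t a → G.Adj t b → a = b :=
    fun t ht a ha b hb => hP2 i t (hTB t ht) a (hXB ha) b (hXB hb)
  have hee : ee G T X ≤ #T := ee_le_card G hone
  have hsum := cut_disj G hXT
  rw [← hUc, ee_comm G X T] at hsum
  by_cases hT0 : T = ∅
  · have h1 : #T = 0 := by rw [hT0]; rfl
    have h2 := hL4 i X hXB (by omega)
    have h3 : cut G T = 0 := by rw [hT0]; exact cut_empty G
    have h4 : ee G T X ≤ 0 := by rw [h1] at hee; exact hee
    omega
  · have hTne : T.Nonempty := Finset.nonempty_of_ne_empty hT0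
    have hcT := hF T hTne (by omega)
    have hTpos : 0 < #T := card_pos.mpr hTne
    by_cases hT2 : #T ≤ 2
    · have h2 := hL4 i X hXB (by omega)
      omega
    · have hT3' : #T = 3 := by omega
      have hX5 : 5 ≤ cut G X := by
        by_cases h4 : 4 ≤ #X
        · have := hL4 i X hXB h4
          omega
        · have h3 : #X = 3 := by omega
          have := hF X (card_pos.mp (by omega)) (by omega)
          omega
      have h3e : #T ≤ ee G T X := by omega
      have hall := exists_of_ee_eq G hone h3e
      have hce := cut_add_ee G hcub T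
      obtain ⟨t1, ht1, t2, ht2, t3, ht3, hne, ha1, ha2⟩ :=
        path_of_three G hT3' (by
          -- cut T is at most 6; parity
          by_contra hlt
          push Not at hlt
          have hle : cut G T ≤ 6 := by omega
          have h3' : ee G T T = 3 := by omega
          have hev : Even (ee G T T) := by
            obtain ⟨a, b, c, hab, hac, hbc, hTe⟩ := card_eq_three.mp hT3'
            have h2 : ee G T T = 2 * #{p : V × V | G.Adj p.1 p.2 ∧
                (p = (a, b) ∨ p = (a, c) ∨ p = (b, c))} := by
              have hs : ee G T T = #{p : V × V | G.Adj p.1 p.2 ∧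
                  (p = (a, b) ∨ p = (a, c) ∨ p = (b, c))}
                  + #{p : V × V | G.Adj p.1 p.2 ∧ (p = (b, a) ∨ p = (c, a) ∨ p = (c, b))} := by
                rw [hTe]
                unfold ee
                rw [← card_union_of_disjoint]
                · congr 1
                  ext ⟨x, y⟩
                  simp only [mem_filter, mem_univ, true_and, mem_insert, mem_singleton, mem_union,
                    Prod.mk.injEq]
                  constructor
                  · rintro ⟨h, hx, hy⟩
                    rcases hx with rfl | rfl | rfl <;> rcases hy with rfl | rfl | rfl <;>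
                      first
                        | exact absurd h (G.irrefl)
                        | simp [h]
                  · rintro (⟨h, h'⟩ | ⟨h, h'⟩) <;>
                      rcases h' with ⟨rfl, rfl⟩ | ⟨rfl, rfl⟩ | ⟨rfl, rfl⟩ <;> simp [h]
                · rw [Finset.disjoint_left]
                  rintro ⟨x, y⟩ h1 h2
                  simp only [mem_filter, mem_univ, true_and, Prod.mk.injEq] at h1 h2
                  rcases h1.2 with ⟨rfl, rfl⟩ | ⟨rfl, rfl⟩ | ⟨rfl, rfl⟩ <;>
                    rcases h2.2 with ⟨h3, h4⟩ | ⟨h3, h4⟩ | ⟨h3, h4⟩ <;>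
                    first
                      | exact hab h3
                      | exact hac h3
                      | exact hbc h3
                      | exact hab h3.symm
                      | exact hac h3.symm
                      | exact hbc h3.symm
                      | exact hab h4
                      | exact hac h4
                      | exact hbc h4
                      | exact hab h4.symm
                      | exact hac h4.symm
              rw [hs, two_mul]
              congr 1
              refine Finset.card_nbij' Prod.swap Prod.swap ?_ ?_ (fun _ _ => rfl) (fun _ _ => rfl)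
              · rintro ⟨x, y⟩ h
                simp only [coe_filter, mem_univ, true_and, Set.mem_ofPred_eq, Prod.swap_prod_mk,
                  Prod.mk.injEq] at h ⊢
                refine ⟨h.1.symm, ?_⟩
                tauto
              · rintro ⟨x, y⟩ h
                simp only [coe_filter, mem_univ, true_and, Set.mem_ofPred_eq, Prod.swap_prod_mk,
                  Prod.mk.injEq] at h ⊢
                refine ⟨h.1.symm, ?_⟩
                tauto
            rw [h2]
            exact even_two_mul _
          rw [h3'] at hev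
          exact absurd hev (by decide))
      obtain ⟨x1, hx1, hax1⟩ := hall t1 ht1
      obtain ⟨x2, hx2, hax2⟩ := hall t2 ht2
      obtain ⟨x3, hx3, hax3⟩ := hall t3 ht3
      exact hP3 i t1 t2 t3 (hTB _ ht1) (hTB _ ht2) (hTB _ ht3) hne ha1 ha2
        ⟨x1, hXB hx1, hax1⟩ ⟨x2, hXB hx2, hax2⟩ ⟨x3, hXB hx3, hax3⟩

include hcub hdisj hcard h6 hL4 hP2 hP3 hF in
theorem star (hbase : ∀ U : Finset V, cut G U ≤ 5 → (∀ i, B i ⊆ U ∨ Disjoint (B i) U) →
    #U ≤ 3 ∨ #Uᶜ ≤ 3) : ∀ U : Finset V, cut G U ≤ 5 → #U ≤ 3 ∨ #Uᶜ ≤ 3 := by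
  classical
  have main : ∀ n, ∀ U : Finset V, #{i | ¬ (B i ⊆ U ∨ Disjoint (B i) U)} ≤ n → cut G U ≤ 5 →
      #U ≤ 3 ∨ #Uᶜ ≤ 3 := by
    intro n
    induction n with
    | zero =>
      intro U h0 hU
      apply hbase U hU
      intro i
      by_contra hcon
      have : i ∈ ({i | ¬ (B i ⊆ U ∨ Disjoint (B i) U)} : Finset ι) :=
        mem_filter.mpr ⟨mem_univ _, hcon⟩
      have := card_pos.mpr ⟨i, this⟩
      omega
    | succ n ih =>
      intro U hn hU
      by_cases hall : ∀ i, B i ⊆ U ∨ Disjoint (B i) U
      · exact hbase U hU hall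
      push Not at hall
      obtain ⟨i, hi1, hi2⟩ := hall
      -- splitting number drops when a piece is added
      have drop : ∀ U' : Finset V, ¬ (B i ⊆ U' ∨ Disjoint (B i) U') →
          #{j | ¬ (B j ⊆ U' ∨ Disjoint (B j) U')} ≤ n + 1 →
          #{j | ¬ (B j ⊆ U' ∪ B i ∨ Disjoint (B j) (U' ∪ B i))} ≤ n := by
        intro U' hU' hc
        have hss : ({j | ¬ (B j ⊆ U' ∪ B i ∨ Disjoint (B j) (U' ∪ B i))} : Finset ι) ⊆
            ({j | ¬ (B j ⊆ U' ∨ Disjoint (B j) U')} : Finset ι).erase i := by
          intro j hj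
          simp only [mem_filter, mem_univ, true_and, mem_erase] at hj ⊢
          have hji : j ≠ i := by
            rintro rfl
            exact hj (Or.inl subset_union_right)
          refine ⟨hji, ?_⟩
          rintro (h | h)
          · exact hj (Or.inl (h.trans subset_union_left))
          · exact hj (Or.inr (disjoint_union_right.mpr ⟨h, hdisj j i hji⟩))
        have := card_le_card hss
        rw [card_erase_of_mem (by simpa using hU')] at this
        omega
      have hsplit : ¬ (B i ⊆ U ∨ Disjoint (B i) U) := by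
        rintro (h | h)
        · exact hi1 h
        · exact hi2 h
      have hsum : #(U ∩ B i) + #(Uᶜ ∩ B i) = #(B i) := by
        rw [← card_union_of_disjoint]
        · congr 1
          ext v
          simp only [mem_union, mem_inter, mem_compl]
          tauto
        · rw [Finset.disjoint_left]
          intro v h1 h2
          simp only [mem_inter, mem_compl] at h1 h2
          exact h2.1 h1.1
      have h7 := hcard i
      by_cases hW : 4 ≤ #(U ∩ B i)
      · right
        exact star_step G hcub B hcard h6 hL4 hP2 hP3 hF i U hU hW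
          (fun h => ih _ (drop U hsplit hn) h)
      · left
        have hW' : 4 ≤ #(Uᶜ ∩ B i) := by omega
        have hsplit' : ¬ (B i ⊆ Uᶜ ∨ Disjoint (B i) Uᶜ) := by
          rintro (h | h)
          · exact hi2 (Finset.disjoint_left.mpr fun v hv hv' => (mem_compl.mp (h hv)) hv')
          · apply hi1
            intro v hv
            by_contra hv'
            exact (Finset.disjoint_left.mp h) hv (mem_compl.mpr hv')
        have hn' : #{j | ¬ (B j ⊆ Uᶜ ∨ Disjoint (B j) Uᶜ)} ≤ n + 1 := by
          refine le_trans (card_le_card ?_) hn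
          intro j hj
          simp only [mem_filter, mem_univ, true_and] at hj ⊢
          rintro (h | h)
          · exact hj (Or.inr (Finset.disjoint_left.mpr fun v hv hv' => (mem_compl.mp hv') (h hv)))
          · exact hj (Or.inl fun v hv => mem_compl.mpr fun hv' => (Finset.disjoint_left.mp h) hv hv')
        have := star_step G hcub B hcard h6 hL4 hP2 hP3 hF i Uᶜ (by rw [cut_compl]; exact hU) hW'
          (fun h => ih _ (drop Uᶜ hsplit' hn') h)
        rwa [compl_compl] at this
  intro U hU
  exact main _ U le_rfl hU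

end Star

end Q107.Snark
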