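import Mathlib

/-!
Snarks, the trees `T_i`, `T_i`-snarks and rotation `T_i`-snarks.
-/

namespace Q107.Snark

/-- `G` is cyclically `k`-edge-connected: deleting fewer than `k` edges never leaves two components
that each contain a cycle. -/
def CycEdgeConn {V : Type*} (G : SimpleGraph V) (k : ℕ) : Prop :=
  ∀ F : Finset (Sym2 V), (F : Set (Sym2 V)) ⊆ G.edgeSet → F.card < k →
    ∀ C D : (G.deleteEdges (F : Set (Sym2 V))).ConnectedComponent, C ≠ D →
      ¬ ((∃ v ∈ C.supp, ∃ p : (G.deleteEdges (F : Set (Sym2 V))).Walk v v, p.IsCycle) ∧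
        (∃ v ∈ D.supp, ∃ p : (G.deleteEdges (F : Set (Sym2 V))).Walk v v, p.IsCycle))

/-- every cycle of `G` has length at least `g` -/
def GirthAtLeast {V : Type*} (G : SimpleGraph V) (g : ℕ) : Prop :=
  ∀ (v : V) (p : G.Walk v v), p.IsCycle → g ≤ p.length

/-- `φ` gives different colours to any two edges of `G` with a common end -/
def ProperEdgeColouring {V : Type*} (G : SimpleGraph V) {α : Type*} (φ : Sym2 V → α) : Prop :=
  ∀ u v w, G.Adj u v → G.Adj u w → v ≠ w → φ s(u, v) ≠ φ s(u, w)

/-- A snark: a finite cubic graph, cyclically 4-edge-connected, of girth at least 5, without a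
proper 3-edge-colouring. -/
structure IsSnark {V : Type*} (G : SimpleGraph V) : Prop where
  finite : Finite V
  cubic : ∀ v, (G.neighborSet v).ncard = 3
  conn : CycEdgeConn G 4
  girth : GirthAtLeast G 5
  uncolourable : ¬ ∃ φ : Sym2 V → Fin 3, ProperEdgeColouring G φ

/-- the number of vertices of `T_i` at distance `d ≤ i` from its centre -/
def width (d : ℕ) : ℕ := if d = 0 then 1 else 3 * 2 ^ (d - 1)

/-- The vertices of `T_i`: the pair `⟨d, n⟩` is the `n`-th vertex, from left to right, among the
vertices at distance `d` from the centre. -/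
abbrev TVert (i : ℕ) : Type := Σ d : Fin (i + 1), Fin (width d)

/-- `v` is a child of `u`: the three vertices at distance 1 are the children of the centre and the
children of the `n`-th vertex at distance `d ≥ 1` are the vertices `2n`, `2n+1` at distance
`d+1`. -/
def IsChild {i : ℕ} (u v : TVert i) : Prop :=
  (v.1 : ℕ) = (u.1 : ℕ) + 1 ∧ ((u.1 : ℕ) = 0 ∨ (v.2 : ℕ) / 2 = (u.2 : ℕ))

/-- the tree `T_i` -/
def TTree (i : ℕ) : SimpleGraph (TVert i) where
  Adj u v := IsChild u v ∨ IsChild v u
  symm := ⟨fun _ _ h => h.symm⟩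
  loopless := ⟨fun u h => by
    rcases h with h | h <;> exact absurd h.1 (by omega)⟩

/-- A `T_i`-snark: a snark with a spanning tree isomorphic to `T_i`. -/
def IsTSnark {V : Type*} (G : SimpleGraph V) (i : ℕ) : Prop :=
  IsSnark G ∧ ∃ e : TVert i ≃ V, ∀ u v, (TTree i).Adj u v → G.Adj (e u) (e v)

/-- the leaf of `T_i` with label `a` (labels increase from left to right) -/
def leaf (i : ℕ) (a : Fin (width i)) : TVert i := ⟨Fin.last i, a⟩

/-- the label `a + l_i / 3` modulo the number `l_i` of leaves -/
def turn {i : ℕ} (a : Fin (width i)) : Fin (width i) :=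
  ⟨((a : ℕ) + width i / 3) % width i, Nat.mod_lt _ (Nat.zero_lt_of_lt a.2)⟩

/-- A rotation `T_i`-snark: a snark `G` with a spanning tree isomorphic to `T_i`, drawn with its
leaves labelled from left to right, so that the turn by a third of the leaves maps edges between
leaves to edges. -/
def IsRotationTSnark {V : Type*} (G : SimpleGraph V) (i : ℕ) : Prop :=
  2 ≤ i ∧ IsSnark G ∧ ∃ e : TVert i ≃ V,
    (∀ u v, (TTree i).Adj u v → G.Adj (e u) (e v)) ∧
    (∀ a b : Fin (width i), G.Adj (e (leaf i a)) (e (leaf i b)) →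
      G.Adj (e (leaf i (turn a))) (e (leaf i (turn b))))

end Q107.Snark
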