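import Mathlib
import Pool.Agent.Q107.Snark.Defs
import Pool.Agent.Q107.Snark.Cut

/-!
From small sets induce forests and every cut with at most five edges is trivial to girth at
least six and cyclic 6-edge-connectivity.
-/

namespace Q107.Snark

open Finset

variable {V : Type*} [Fintype V] [DecidableEq V] (G : SimpleGraph V) [DecidableRel G.Adj]

/-- every nonempty set of at most five vertices has a vertex with at most one neighbour in it -/
def Leafy : Prop :=
  ∀ S : Finset V, S.Nonempty → #S ≤ 5 → ∃ v ∈ S, ∀ a ∈ S, ∀ b ∈ S, G.Adj v a → G.Adj v b → a = b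

lemma forest (hcub : ∀ v, G.degree v = 3) (hl : Leafy G) :
    ∀ S : Finset V, S.Nonempty → #S ≤ 5 → #S + 2 ≤ cut G S := by
  have main : ∀ n, ∀ S : Finset V, #S = n → S.Nonempty → #S ≤ 5 → #S + 2 ≤ cut G S := by
    intro n
    induction n with
    | zero => intro S h1 h2; rw [card_eq_zero] at h1; simp [h1] at h2
    | succ n ih =>
      intro S hn hS h5
      obtain ⟨v, hv, huniq⟩ := hl S hS h5
      have hd : Disjoint (S.erase v) {v} := by simp
      have h1 := cut_disj G hd
      have hS' : S.erase v ∪ {v} = S := by
        ext x; simp only [mem_union, mem_erase, mem_singleton]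
        constructor
        · rintro (h | rfl)
          · exact h.2
          · exact hv
        · intro h
          by_cases hx : x = v
          · right; exact hx
          · left; exact ⟨hx, h⟩
      rw [hS', ee_comm] at h1
      have h2 := cut_add_ee G hcub {v}
      have h3 : ee G {v} {v} = 0 := by
        unfold ee
        rw [card_eq_zero, filter_eq_empty_iff]
        rintro ⟨a, b⟩ - ⟨h, ha, hb⟩
        simp only [mem_singleton] at ha hb
        subst ha; subst hb
        exact G.irrefl h
      have h4 : ee G {v} (S.erase v) ≤ #({v} : Finset V) := by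
        refine ee_le_card G ?_
        intro t ht a ha b hb k1 k2
        rw [mem_singleton] at ht
        subst ht
        exact huniq a (mem_of_mem_erase ha) b (mem_of_mem_erase hb) k1 k2
      rw [card_singleton] at h2 h4
      have h5' : #(S.erase v) = n := by rw [card_erase_of_mem hv]; omega
      by_cases hne : (S.erase v).Nonempty
      · have := ih _ h5' hne (by omega)
        omega
      · rw [not_nonempty_iff_eq_empty] at hne
        have h6 : n = 0 := by rw [← h5', hne]; rfl
        have h7 : ee G {v} (S.erase v) = 0 := by rw [hne]; simp [ee]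
        omega
  intro S
  exact main _ S rfl

omit [Fintype V] [DecidableRel G.Adj] in
lemma girth_six (hl : Leafy G) : GirthAtLeast G 6 := by
  intro v p hp
  by_contra hlt
  push Not at hlt
  have hS : #p.support.tail.toFinset ≤ 5 := by
    refine (List.toFinset_card_le _).trans ?_
    rw [List.length_tail, SimpleGraph.Walk.length_support]
    omega
  have hend := p.end_mem_tail_support hp.not_nil
  have hmem : ∀ x, x ∈ p.support → x ∈ p.support.tail.toFinset := by
    intro x hx
    rw [List.mem_toFinset]
    rcases (p.mem_support_iff).mp hx with rfl | h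
    · exact hend
    · exact h
  obtain ⟨w, hw, huniq⟩ := hl _ ⟨v, hmem v p.start_mem_support⟩ hS
  have hw' : w ∈ p.support := List.mem_of_mem_tail (List.mem_toFinset.mp hw)
  have h2 := hp.ncard_neighborSet_toSubgraph_eq_two hw'
  obtain ⟨x, y, hxy, hset⟩ := Set.ncard_eq_two.mp h2
  have hx : p.toSubgraph.Adj w x := by
    have : x ∈ p.toSubgraph.neighborSet w := by rw [hset]; simp
    exact this
  have hy : p.toSubgraph.Adj w y := by
    have : y ∈ p.toSubgraph.neighborSet w := by rw [hset]; simp
    exact this
  have hxs : x ∈ p.support := by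
    rw [← SimpleGraph.Walk.mem_verts_toSubgraph]; exact hx.snd_mem
  have hys : y ∈ p.support := by
    rw [← SimpleGraph.Walk.mem_verts_toSubgraph]; exact hy.snd_mem
  exact hxy (huniq x (hmem x hxs) y (hmem y hys) hx.adj_sub hy.adj_sub)

omit [Fintype V] [DecidableRel G.Adj] in
/-- a cycle of a subgraph of `G` in the component `C` shows that `C` has at least six vertices -/
lemma six_of_cycle (hg : GirthAtLeast G 6) {H : SimpleGraph V} (hH : H ≤ G)
    (C : H.ConnectedComponent) (U : Finset V) (hU : ∀ x, x ∈ C.supp → x ∈ U) {v : V}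
    (hv : v ∈ C.supp) {p : H.Walk v v} (hp : p.IsCycle) : 6 ≤ #U := by
  have h6 : 6 ≤ p.length := by
    have := hg v (p.mapLe hH) (hp.mapLe hH)
    simpa using this
  have hsub : p.support.tail.toFinset ⊆ U := by
    intro x hx
    apply hU
    rw [List.mem_toFinset] at hx
    have hx' : x ∈ p.support := List.mem_of_mem_tail hx
    have hr : H.Reachable v x := ⟨p.takeUntil x hx'⟩
    rw [SimpleGraph.ConnectedComponent.mem_supp_iff] at hv ⊢
    rw [← hv]
    exact (SimpleGraph.ConnectedComponent.eq.mpr hr).symm
  have := card_le_card hsub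
  rw [List.toFinset_card_of_nodup hp.support_nodup, List.length_tail,
    SimpleGraph.Walk.length_support] at this
  omega

theorem cyc_six (hg : GirthAtLeast G 6)
    (hstar : ∀ U : Finset V, cut G U ≤ 5 → #U ≤ 3 ∨ #Uᶜ ≤ 3) : CycEdgeConn G 6 := by
  classical
  intro F hF hcard C D hCD
  rintro ⟨⟨v, hv, p, hp⟩, ⟨w, hw, q, hq⟩⟩
  have hH : G.deleteEdges (F : Set (Sym2 V)) ≤ G := SimpleGraph.deleteEdges_le _
  set U : Finset V := univ.filter (fun x => x ∈ C.supp) with hUdef
  have hU : ∀ x, x ∈ C.supp → x ∈ U := by intro x hx; simp [hUdef]; exact hx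
  have hD : ∀ x, x ∈ D.supp → x ∈ Uᶜ := by
    intro x hx
    rw [mem_compl]
    intro hx'
    simp only [hUdef, mem_filter, mem_univ, true_and] at hx'
    rw [SimpleGraph.ConnectedComponent.mem_supp_iff] at hx hx'
    exact hCD (hx'.symm.trans hx)
  have hcut : cut G U ≤ #F := by
    unfold cut
    refine card_le_card_of_injOn (fun x => s(x.1, x.2)) ?_ ?_
    · rintro ⟨a, b⟩ h
      simp only [coe_filter, mem_univ, true_and, Set.mem_ofPred_eq] at h
      obtain ⟨hadj, ha, hb⟩ := h
      by_contra hnot
      apply hb
      have hadj' : (G.deleteEdges (F : Set (Sym2 V))).Adj a b := by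
        rw [SimpleGraph.deleteEdges_adj]
        exact ⟨hadj, hnot⟩
      simp only [hUdef, mem_filter, mem_univ, true_and] at ha ⊢
      rw [SimpleGraph.ConnectedComponent.mem_supp_iff] at ha ⊢
      rw [← ha]
      exact (SimpleGraph.ConnectedComponent.eq.mpr hadj'.reachable).symm
    · rintro ⟨a, b⟩ h ⟨c, d⟩ h' heq
      simp only [coe_filter, mem_univ, true_and, Set.mem_ofPred_eq] at h h'
      simp only [Sym2.eq, Sym2.rel_iff', Prod.mk.injEq, Prod.swap_prod_mk] at heq
      rcases heq with ⟨rfl, rfl⟩ | ⟨rfl, rfl⟩
      · rfl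
      · exact absurd h.2.1 h'.2.2
  have h1 := six_of_cycle G hg hH C U hU hv hp
  have h2 := six_of_cycle G hg hH D Uᶜ hD hw hq
  rcases hstar U (by omega) with h | h <;> omega

lemma CycEdgeConn.mono {V : Type*} {G : SimpleGraph V} {k l : ℕ} (h : CycEdgeConn G l)
    (hkl : k ≤ l) : CycEdgeConn G k := fun F hF hc => h F hF (by omega)

end Q107.Snark
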