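import Mathlib
import Pool.Agent.Q107.Snark.Defs

/-!
The family of graphs: a ring of `6 * 2^k` blocks with 31 vertices each, hung below a tree.
-/

namespace Q107.Snark

/-- number of blocks -/
def M (k : ℕ) : ℕ := 6 * 2 ^ k

lemma M_pos (k : ℕ) : 6 ≤ M k := by
  have : 1 ≤ 2 ^ k := Nat.one_le_two_pow
  unfold M; omega

instance (k : ℕ) : NeZero (M k) := ⟨by have := M_pos k; omega⟩

lemma M_cases (k : ℕ) : M k = 6 ∨ (12 ≤ M k ∧ M k % 2 = 0) := by
  unfold M
  rcases k with _ | k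
  · left; rfl
  · right
    have : 1 ≤ 2 ^ k := Nat.one_le_two_pow
    rw [pow_succ]
    omega

/-- vertices: the top of the tree (heap numbers `2 ≤ w < M`) and the blocks -/
abbrev Top (k : ℕ) : Type := {w : ℕ // 2 ≤ w ∧ w < M k}

abbrev Vx (k : ℕ) : Type := Top k ⊕ (ZMod (M k) × Fin 31)

/-- parent of the tree vertex with heap number `w` -/
def par (w : ℕ) : ℕ := if w < 6 then 2 else if w < 12 then 3 + w % 3 else w / 2

/-- heap numbers of the neighbours in the tree -/
def nw (w : ℕ) (i : Fin 3) : ℕ :=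
  if w = 2 then 3 + i else
    match i with
    | 0 => par w
    | 1 => if w < 6 then w + 3 else 2 * w
    | 2 => if w < 6 then w + 6 else 2 * w + 1

/-- the vertex with heap number `w < 2M` -/
def mk (k w : ℕ) : Vx k :=
  if h : 2 ≤ w ∧ w < M k then Sum.inl ⟨w, h⟩ else Sum.inr (((w - M k : ℕ) : ZMod (M k)), 0)

/-- leaf-leaf edges: end in the block -/
def flQ : List (Fin 31) :=
  [23, 30, 25, 22, 22, 29, 21, 20, 23, 27, 18, 25, 18, 27, 16, 17,
   15, 19, 29, 28, 20, 16, 28, 30, 19, 21, 24, 26, 24, 17, 26, 15]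

/-- leaf-leaf edges: change of the block -/
def flD : List ℤ :=
  [0, 1, 0, 0, 0, 1, 0, 0, 0, 1, 0, 0, 0, 1, 0, 0,
   0, 0, 0, 0, 0, 0, 0, 0, -1, -1, 0, 0, 0, -1, 0, -1]

/-- neighbour `i` of the vertex `p` of a block: position -/
def nbQ (p : Fin 31) (i : Fin 3) : Fin 31 :=
  if i = 0 then Fin.ofNat 31 ((p.val - 1) / 2) else
    if p.val < 15 then Fin.ofNat 31 (2 * p.val + i.val) else
      flQ.getD (2 * (p.val - 15) + (i.val - 1)) 0

/-- neighbour `i` of the vertex `p` of a block: change of the block -/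
def nbD (p : Fin 31) (i : Fin 3) : ℤ :=
  if i = 0 then 0 else if p.val < 15 then 0 else flD.getD (2 * (p.val - 15) + (i.val - 1)) 0

/-- the three neighbours of a vertex -/
def nb {k : ℕ} : Vx k → Fin 3 → Vx k
  | Sum.inl w, i => mk k (nw w.1 i)
  | Sum.inr (J, p), i =>
    if p = 0 ∧ i = 0 then mk k (par (M k + J.val)) else Sum.inr (J + (nbD p i : ℤ), nbQ p i)

lemma S1 : ∀ p : Fin 31, ∀ i : Fin 3, ¬ (p = 0 ∧ i = 0) →
    ∃ j : Fin 3, ¬ (nbQ p i = 0 ∧ j = 0) ∧ nbQ (nbQ p i) j = p ∧ nbD (nbQ p i) j = - nbD p i := by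
  decide

lemma S2 : ∀ p : Fin 31, ∀ i j : Fin 3, i ≠ j → ¬ (p = 0 ∧ i = 0) → ¬ (p = 0 ∧ j = 0) →
    nbQ p i ≠ nbQ p j := by
  decide

lemma S3 : ∀ p : Fin 31, ∀ i : Fin 3, ¬ (p = 0 ∧ i = 0) → nbQ p i ≠ p := by decide

lemma mk_inl {k w : ℕ} (h : 2 ≤ w ∧ w < M k) : mk k w = Sum.inl ⟨w, h⟩ := by
  unfold mk; rw [dif_pos h]

lemma mk_root {k : ℕ} (J : ZMod (M k)) : mk k (M k + J.val) = Sum.inr (J, 0) := by
  unfold mk
  rw [dif_neg (by omega)]
  congr
  simp

lemma mk_inr {k w : ℕ} (h : M k ≤ w) : mk k w = Sum.inr (((w - M k : ℕ) : ZMod (M k)), 0) := by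
  unfold mk
  rw [dif_neg (by omega)]

lemma mk_inj {k w w' : ℕ} (h1 : 2 ≤ w) (h2 : w < 2 * M k) (h1' : 2 ≤ w') (h2' : w' < 2 * M k)
    (h : mk k w = mk k w') : w = w' := by
  by_cases a : w < M k <;> by_cases b : w' < M k
  · rw [mk_inl ⟨h1, a⟩, mk_inl ⟨h1', b⟩] at h
    simpa using h
  · rw [mk_inl ⟨h1, a⟩, mk_inr (by omega)] at h
    simp at h
  · rw [mk_inr (by omega), mk_inl ⟨h1', b⟩] at h
    simp at h
  · rw [mk_inr (by omega), mk_inr (by omega)] at h
    simp only [Sum.inr.injEq, Prod.mk.injEq, and_true] at h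
    have h3 := congrArg ZMod.val h
    rw [ZMod.val_natCast_of_lt (by omega), ZMod.val_natCast_of_lt (by omega)] at h3
    omega

lemma fin3 (i : Fin 3) : i = 0 ∨ i = 1 ∨ i = 2 := by
  fin_cases i <;> simp

lemma nw_two (i : Fin 3) : nw 2 i = 3 + i := by simp [nw]

lemma nw_zero {w : ℕ} (h : w ≠ 2) : nw w 0 = par w := by simp [nw, h]

lemma nw_one {w : ℕ} (h : w ≠ 2) : nw w 1 = if w < 6 then w + 3 else 2 * w := by simp [nw, h]

lemma nw_tw {w : ℕ} (h : w ≠ 2) : nw w 2 = if w < 6 then w + 6 else 2 * w + 1 := by simp [nw, h]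

lemma nw_bd {k w : ℕ} (h : 2 ≤ w ∧ w < M k) (i : Fin 3) : 2 ≤ nw w i ∧ nw w i < 2 * M k := by
  have h6 := M_pos k
  have hM := M_cases k
  by_cases h2 : w = 2
  · subst h2
    rw [nw_two]
    have := i.2
    omega
  · rcases fin3 i with rfl | rfl | rfl
    · rw [nw_zero h2]; unfold par; split_ifs <;> omega
    · rw [nw_one h2]; split_ifs <;> omega
    · rw [nw_tw h2]; split_ifs <;> omega

lemma nw_ne {w : ℕ} (h : 2 ≤ w) (i : Fin 3) : nw w i ≠ w := by
  by_cases h2 : w = 2
  · subst h2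
    rw [nw_two]
    omega
  · rcases fin3 i with rfl | rfl | rfl
    · rw [nw_zero h2]; unfold par; split_ifs <;> omega
    · rw [nw_one h2]; split_ifs <;> omega
    · rw [nw_tw h2]; split_ifs <;> omega

lemma nw_inj {w : ℕ} (h : 2 ≤ w) : ∀ i j : Fin 3, nw w i = nw w j → i = j := by
  intro i j hij
  by_cases h2 : w = 2
  · subst h2
    rw [nw_two, nw_two] at hij
    apply Fin.ext
    omega
  · rcases fin3 i with rfl | rfl | rfl <;> rcases fin3 j with rfl | rfl | rfl <;>
      simp only [nw_zero h2, nw_one h2, nw_tw h2, par] at hij ⊢ <;>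
      first
        | (exfalso; split_ifs at hij <;> omega)

/-- parent of a heap number at least 3 is recovered as a neighbour -/
lemma nw_par {w : ℕ} (h : 3 ≤ w) : ∃ j, nw (par w) j = w := by
  unfold nw par
  by_cases h1 : w < 6
  · refine ⟨⟨w - 3, by omega⟩, ?_⟩
    simp [h1]; omega
  · by_cases h2 : w < 12
    · by_cases h3 : w < 9
      · refine ⟨1, ?_⟩
        simp only [h1, h2, if_false, if_true]
        split_ifs <;> omega
      · refine ⟨2, ?_⟩
        simp only [h1, h2, if_false, if_true]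
        split_ifs <;> omega
    · rcases Nat.mod_two_eq_zero_or_one w with h3 | h3
      · refine ⟨1, ?_⟩
        simp only [h1, h2, if_false]
        split_ifs <;> omega
      · refine ⟨2, ?_⟩
        simp only [h1, h2, if_false]
        split_ifs <;> omega

lemma par_bd {k w : ℕ} (h : 3 ≤ w) (h2 : w < 2 * M k) : 2 ≤ par w ∧ par w < M k := by
  have h6 := M_pos k
  have hM := M_cases k
  unfold par
  split_ifs <;> omega

lemma par_lt {w : ℕ} (h : 3 ≤ w) : par w < w := by
  unfold par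
  split_ifs <;> omega

/-- a neighbour of `w` in the heap is its parent or has `w` as its parent -/
lemma nw_cases {w : ℕ} (h : 2 ≤ w) (i : Fin 3) :
    (3 ≤ w ∧ i = 0 ∧ nw w i = par w) ∨ (3 ≤ nw w i ∧ par (nw w i) = w) := by
  by_cases h2 : w = 2
  · subst h2
    right
    rw [nw_two]
    have := i.2
    refine ⟨by omega, ?_⟩
    unfold par
    rw [if_pos (by omega)]
  · rcases fin3 i with rfl | rfl | rfl
    · left
      exact ⟨by omega, rfl, nw_zero h2⟩
    · right
      rw [nw_one h2]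
      unfold par
      split_ifs <;> omega
    · right
      rw [nw_tw h2]
      unfold par
      split_ifs <;> omega

lemma val_add_lt {k : ℕ} (J : ZMod (M k)) : M k + J.val < 2 * M k := by
  have := ZMod.val_lt J; omega

lemma nb_root {k : ℕ} (J : ZMod (M k)) :
    nb (Sum.inr (J, (0 : Fin 31)) : Vx k) 0 = mk k (par (M k + J.val)) := by
  simp [nb]

lemma nb_blk {k : ℕ} (J : ZMod (M k)) {p : Fin 31} {i : Fin 3} (h : ¬ (p = 0 ∧ i = 0)) :
    nb (Sum.inr (J, p) : Vx k) i = Sum.inr (J + (nbD p i : ℤ), nbQ p i) := by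
  simp only [nb]
  rw [if_neg h]

lemma nb_symm {k : ℕ} (u : Vx k) (i : Fin 3) : ∃ j, nb (nb u i) j = u := by
  have h6 := M_pos k
  rcases u with w | ⟨J, p⟩
  · have hw := w.2
    have hbd := nw_bd hw i
    change ∃ j, nb (mk k (nw w.1 i)) j = Sum.inl w
    rcases nw_cases hw.1 i with ⟨h3, hi, hp⟩ | ⟨h3, hp⟩
    · rw [hp]
      have hpb := par_bd (k := k) h3 (by omega)
      obtain ⟨j, hj⟩ := nw_par h3
      refine ⟨j, ?_⟩
      rw [mk_inl hpb]
      change mk k (nw (par w.1) j) = _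
      rw [hj, mk_inl hw]
    · by_cases hlt : nw w.1 i < M k
      · rw [mk_inl ⟨by omega, hlt⟩]
        refine ⟨0, ?_⟩
        change mk k (nw (nw w.1 i) 0) = _
        have : nw (nw w.1 i) 0 = par (nw w.1 i) := by
          rw [nw]
          rw [if_neg (by omega)]
        rw [this, hp, mk_inl hw]
      · rw [mk_inr (by omega)]
        refine ⟨0, ?_⟩
        rw [nb_root, ZMod.val_natCast_of_lt (by omega)]
        have : M k + (nw w.1 i - M k) = nw w.1 i := by omega
        rw [this, hp, mk_inl hw]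
  · by_cases h0 : p = 0 ∧ i = 0
    · obtain ⟨rfl, rfl⟩ := h0
      rw [nb_root]
      have hlt := val_add_lt J
      have hpb := par_bd (k := k) (w := M k + J.val) (by omega) hlt
      obtain ⟨j, hj⟩ := nw_par (w := M k + J.val) (by omega)
      refine ⟨j, ?_⟩
      rw [mk_inl hpb]
      change mk k (nw (par (M k + J.val)) j) = _
      rw [hj, mk_root]
    · rw [nb_blk J h0]
      obtain ⟨j, hj0, hj1, hj2⟩ := S1 p i h0
      refine ⟨j, ?_⟩
      rw [nb_blk _ hj0, hj1, hj2]
      simp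

lemma nb_inj {k : ℕ} (u : Vx k) : Function.Injective (nb u) := by
  intro i j hij
  rcases u with w | ⟨J, p⟩
  · have hw := w.2
    apply nw_inj hw.1 i j
    exact mk_inj (nw_bd hw i).1 (nw_bd hw i).2 (nw_bd hw j).1 (nw_bd hw j).2 hij
  · by_contra hne
    change (if p = 0 ∧ i = 0 then _ else _) = (if p = 0 ∧ j = 0 then _ else _) at hij
    have hlt := val_add_lt J
    have h6 := M_pos k
    have hpb := par_bd (k := k) (w := M k + J.val) (by omega) hlt
    split_ifs at hij with h1 h2 h2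
    · exact hne (h1.2.trans h2.2.symm)
    · rw [mk_inl hpb] at hij
      simp at hij
    · rw [mk_inl hpb] at hij
      simp at hij
    · simp only [Sum.inr.injEq, Prod.mk.injEq] at hij
      exact S2 p i j hne h1 h2 hij.2

lemma nb_ne {k : ℕ} (u : Vx k) (i : Fin 3) : nb u i ≠ u := by
  intro h
  rcases u with w | ⟨J, p⟩
  · have hw := w.2
    have h' : mk k (nw w.1 i) = mk k w.1 := by
      rw [mk_inl hw]; exact h
    have := mk_inj (nw_bd hw i).1 (nw_bd hw i).2 (by omega) (by omega) h'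
    exact nw_ne hw.1 i this
  · have hlt := val_add_lt J
    have h6 := M_pos k
    have hpb := par_bd (k := k) (w := M k + J.val) (by omega) hlt
    change (if p = 0 ∧ i = 0 then _ else _) = _ at h
    split_ifs at h with h1
    · rw [mk_inl hpb] at h
      simp at h
    · simp only [Sum.inr.injEq, Prod.mk.injEq] at h
      exact S3 p i h1 h.2

/-- the graph -/
def Gr (k : ℕ) : SimpleGraph (Vx k) where
  Adj u v := ∃ i, nb u i = v
  symm := ⟨by
    rintro u v ⟨i, rfl⟩
    exact nb_symm u i⟩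
  loopless := ⟨by
    rintro u ⟨i, h⟩
    exact nb_ne u i h⟩

noncomputable instance (k : ℕ) : Fintype (Top k) :=
  Fintype.subtype (Finset.Ico 2 (M k)) (by intro x; simp)

instance (k : ℕ) : DecidableRel (Gr k).Adj := fun u v =>
  inferInstanceAs (Decidable (∃ i, nb u i = v))

lemma adj_iff {k : ℕ} {u v : Vx k} : (Gr k).Adj u v ↔ ∃ i, nb u i = v := Iff.rfl

lemma nf_eq {k : ℕ} (u : Vx k) : (Gr k).neighborFinset u = Finset.univ.image (nb u) := by
  ext v
  simp [SimpleGraph.mem_neighborFinset, adj_iff]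

lemma degree_eq {k : ℕ} (u : Vx k) : (Gr k).degree u = 3 := by
  rw [← SimpleGraph.card_neighborFinset_eq_degree, nf_eq,
    Finset.card_image_of_injective _ (nb_inj u)]
  simp

end Q107.Snark
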