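import Mathlib
import Pool.Agent.Q107.Snark.Fam
import Pool.Agent.Q107.Snark.Cut

/-!
Small vertex sets of `Gr k` induce forests; hence girth at least six.
-/

namespace Q107.Snark

open Finset

/-- one step in the local model -/
def stp (x : ℤ × Fin 31) (i : Fin 3) : ℤ × Fin 31 := (x.1 + nbD x.2 i, nbQ x.2 i)

/-- the vertex at the local position `x` seen from block `J` -/
def L {k : ℕ} (J : ZMod (M k)) (x : ℤ × Fin 31) : Vx k := Sum.inr (J + (x.1 : ZMod (M k)), x.2)

lemma nb_L {k : ℕ} (J : ZMod (M k)) {x : ℤ × Fin 31} {i : Fin 3} (h : ¬ (x.2 = 0 ∧ i = 0)) :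
    nb (L J x) i = L J (stp x i) := by
  unfold L stp
  rw [nb_blk _ h]
  simp only
  congr 2
  push_cast
  ring

lemma L_inj {k : ℕ} (J : ZMod (M k)) {x y : ℤ × Fin 31} (h : L J x = L J y)
    (hd : (x.1 - y.1).natAbs < 6) : x = y := by
  have h6 := M_pos k
  unfold L at h
  simp only [Sum.inr.injEq, Prod.mk.injEq, add_right_inj] at h
  refine Prod.ext ?_ h.2
  have h1 : ((x.1 - y.1 : ℤ) : ZMod (M k)) = 0 := by
    push_cast; rw [h.1]; ring
  rw [ZMod.intCast_zmod_eq_zero_iff_dvd] at h1
  have := Int.eq_zero_of_abs_lt_dvd h1 (by rw [Int.abs_eq_natAbs]; omega)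
  omega

lemma S4 : ∀ p : Fin 31, ∀ i : Fin 3, p.val < 15 → i ≠ 0 →
    nbD p i = 0 ∧ (nbQ p i).val = 2 * p.val + i.val ∧ nbQ (nbQ p i) 0 = p ∧
      nbD (nbQ p i) 0 = 0 ∧ nbQ p i ≠ 0 := by
  decide

lemma S4' : ∀ p : Fin 31, p ≠ 0 → nbD p 0 = 0 ∧ (nbQ p 0).val = (p.val - 1) / 2 := by
  decide

/-- all non-backtracking walks of length five in the lower parts of the blocks are paths -/
lemma S5 : ∀ p : Fin 31, 3 ≤ p.val → ∀ i0 : Fin 3, 3 ≤ (stp (0, p) i0).2.val →
    ∀ i1 : Fin 3, stp (stp (0, p) i0) i1 ≠ (0, p) → 3 ≤ (stp (stp (0, p) i0) i1).2.val →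
    ∀ i2 : Fin 3, stp (stp (stp (0, p) i0) i1) i2 ≠ stp (0, p) i0 →
      3 ≤ (stp (stp (stp (0, p) i0) i1) i2).2.val →
    ∀ i3 : Fin 3, stp (stp (stp (stp (0, p) i0) i1) i2) i3 ≠ stp (stp (0, p) i0) i1 →
      3 ≤ (stp (stp (stp (stp (0, p) i0) i1) i2) i3).2.val →
    ∀ i4 : Fin 3, stp (stp (stp (stp (stp (0, p) i0) i1) i2) i3) i4 ≠
        stp (stp (stp (0, p) i0) i1) i2 →
      ([(0, p), stp (0, p) i0, stp (stp (0, p) i0) i1, stp (stp (stp (0, p) i0) i1) i2,
        stp (stp (stp (stp (0, p) i0) i1) i2) i3,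
        stp (stp (stp (stp (stp (0, p) i0) i1) i2) i3) i4] : List (ℤ × Fin 31)).Nodup ∧
      ∀ x ∈ ([(0, p), stp (0, p) i0, stp (stp (0, p) i0) i1, stp (stp (stp (0, p) i0) i1) i2,
        stp (stp (stp (stp (0, p) i0) i1) i2) i3,
        stp (stp (stp (stp (stp (0, p) i0) i1) i2) i3) i4] : List (ℤ × Fin 31)),
          -2 ≤ x.1 ∧ x.1 ≤ 2 := by
  decide +kernel

/-- an ordering of the vertices in which parents come before children -/
def W {k : ℕ} : Vx k → ℕ
  | Sum.inl w => w.1
  | Sum.inr (J, p) => M k + p.val * M k + J.val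

/-- vertex of the top, or block vertex of number less than `n` -/
def low {k : ℕ} (n : ℕ) : Vx k → Prop
  | Sum.inl _ => True
  | Sum.inr (_, p) => p.val < n

lemma P_mk {k c : ℕ} (h3 : 3 ≤ c) (h : c < 2 * M k) : nb (mk k c) 0 = mk k (par c) := by
  by_cases hc : c < M k
  · rw [mk_inl ⟨by omega, hc⟩]
    change mk k (nw c 0) = _
    rw [nw_zero (by omega)]
  · rw [mk_inr (by omega), nb_root, ZMod.val_natCast_of_lt (by omega)]
    congr 2
    omega

lemma W_mk {k c : ℕ} (h2 : 2 ≤ c) (h : c < 2 * M k) : W (mk k c) = c := by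
  by_cases hc : c < M k
  · rw [mk_inl ⟨h2, hc⟩]; rfl
  · rw [mk_inr (by omega)]
    change M k + (0 : Fin 31).val * M k + (((c - M k : ℕ) : ZMod (M k))).val = c
    rw [ZMod.val_natCast_of_lt (by omega)]
    simp
    omega

lemma low_mk {k c n : ℕ} (hn : 0 < n) : low n (mk k c) := by
  unfold mk
  split_ifs
  · trivial
  · exact hn

/-- children of a low vertex -/
lemma child {k n : ℕ} (hn : n ≤ 15) (u : Vx k) (hu : low n u) (i : Fin 3)
    (hi : nb u i = nb u 0 → 3 ≤ W u → False) :
    nb (nb u i) 0 = u ∧ low (2 * n + 1) (nb u i) ∧ W u < W (nb u i) := by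
  have h6 := M_pos k
  rcases u with w | ⟨J, p⟩
  · have hw := w.2
    have hbd := nw_bd hw i
    change nb (mk k (nw w.1 i)) 0 = Sum.inl w ∧ low (2 * n + 1) (mk k (nw w.1 i)) ∧
      w.1 < W (mk k (nw w.1 i))
    rcases nw_cases hw.1 i with ⟨h3, hi0, _⟩ | ⟨h3, hp⟩
    · exact (hi (by rw [hi0]) h3).elim
    · have hlt := par_lt h3
      refine ⟨?_, low_mk (by omega), ?_⟩
      · rw [P_mk h3 hbd.2, hp, mk_inl hw]
      · rw [W_mk hbd.1 hbd.2]
        omega
  · have hi0 : i ≠ 0 := by
      rintro rfl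
      exact hi rfl (by change 3 ≤ M k + p.val * M k + J.val; nlinarith [Nat.zero_le (p.val * M k)])
    have hp : p.val < n := hu
    obtain ⟨h1, h2, h3, h4, h5⟩ := S4 p i (by omega) hi0
    have hne : ¬ (p = 0 ∧ i = 0) := fun h => hi0 h.2
    rw [nb_blk J hne]
    have hne' : ¬ (nbQ p i = 0 ∧ (0 : Fin 3) = 0) := fun h => h5 h.1
    refine ⟨?_, ?_, ?_⟩
    · rw [nb_blk _ hne', h3, h4, h1]
      simp
    · change (nbQ p i).val < 2 * n + 1
      have := i.2
      omega
    · change M k + p.val * M k + J.val < M k + (nbQ p i).val * M k + (J + (nbD p i : ℤ)).val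
      rw [h1, h2]
      have hi1 : 0 < i.val := Nat.pos_of_ne_zero (fun h => hi0 (Fin.ext h))
      simp only [Int.cast_zero, add_zero]
      nlinarith

/-- the parent comes earlier -/
lemma W_parent {k : ℕ} (u : Vx k) (h : 3 ≤ W u) : W (nb u 0) < W u := by
  have h6 := M_pos k
  rcases u with w | ⟨J, p⟩
  · have hw := w.2
    have h3 : 3 ≤ w.1 := h
    change W (mk k (nw w.1 0)) < w.1
    rw [nw_zero (by omega)]
    have := par_bd (k := k) h3 (by omega)
    rw [W_mk this.1 (by omega)]
    exact par_lt h3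
  · by_cases hp : p = 0
    · subst hp
      rw [nb_root]
      have hlt := val_add_lt J
      have := par_bd (k := k) (w := M k + J.val) (by omega) hlt
      rw [W_mk this.1 (by omega)]
      change _ < M k + (0 : Fin 31).val * M k + J.val
      simp
      omega
    · rw [nb_blk J (fun h => hp h.1)]
      obtain ⟨h1, h2⟩ := S4' p hp
      change M k + (nbQ p 0).val * M k + (J + (nbD p 0 : ℤ)).val < M k + p.val * M k + J.val
      rw [h1, h2]
      have hp1 : 0 < p.val := Nat.pos_of_ne_zero (fun h => hp (Fin.ext h))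
      simp only [Int.cast_zero, add_zero]
      have : (p.val - 1) / 2 < p.val := by omega
      nlinarith

lemma W_two {k : ℕ} (u : Vx k) : 2 ≤ W u := by
  have h6 := M_pos k
  rcases u with w | ⟨J, p⟩
  · exact w.2.1
  · change 2 ≤ M k + p.val * M k + J.val
    nlinarith [Nat.zero_le (p.val * M k)]

/-- a nonempty set with at most five vertices has a vertex with at most one neighbour in it -/
theorem leafy {k : ℕ} (S : Finset (Vx k)) (hS : S.Nonempty) (h5 : #S ≤ 5) :
    ∃ v ∈ S, ∀ i j, nb v i ∈ S → nb v j ∈ S → i = j := by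
  classical
  by_contra hcon
  push Not at hcon
  have h6 := M_pos k
  -- a neighbour in S different from a given one
  have other : ∀ v ∈ S, ∀ u : Vx k, ∃ i, nb v i ∈ S ∧ nb v i ≠ u := by
    intro v hv u
    obtain ⟨i, j, hi, hj, hij⟩ := hcon v hv
    by_cases h : nb v i = u
    · refine ⟨j, hj, fun h' => hij (nb_inj v (h.trans h'.symm))⟩
    · exact ⟨i, hi, h⟩
  obtain ⟨v0, hv0, hmin⟩ := exists_min_image S W hS
  by_cases hlow : low 3 v0
  · -- a high vertex
    have hpar : ∀ i, nb v0 i ∈ S → nb v0 i = nb v0 0 → 3 ≤ W v0 → False := by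
      intro i hi he h3
      have h1 := hmin _ hi
      rw [he] at h1
      have := W_parent v0 h3
      omega
    obtain ⟨i, j, hi, hj, hij⟩ := hcon v0 hv0
    obtain ⟨a1, a2, a3⟩ := child (by norm_num) v0 hlow i (hpar i hi)
    obtain ⟨b1, b2, b3⟩ := child (by norm_num) v0 hlow j (hpar j hj)
    have hab : nb v0 i ≠ nb v0 j := fun h => hij (nb_inj v0 h)
    set a := nb v0 i
    set b := nb v0 j
    obtain ⟨i1, hi1, hi1'⟩ := other a hi v0
    obtain ⟨j1, hj1, hj1'⟩ := other b hj v0
    obtain ⟨c1, c2, c3⟩ := child (by norm_num) a a2 i1 (fun h _ => hi1' (by rw [h, a1]))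
    obtain ⟨d1, d2, d3⟩ := child (by norm_num) b b2 j1 (fun h _ => hj1' (by rw [h, b1]))
    set c := nb a i1
    set d := nb b j1
    obtain ⟨i2, hi2, hi2'⟩ := other c hi1 a
    obtain ⟨e1, e2, e3⟩ := child (by norm_num) c c2 i2 (fun h _ => hi2' (by rw [h, c1]))
    set e := nb c i2
    have hcd : c ≠ d := by
      intro h
      apply hab
      rw [← c1, ← d1, h]
    have hcb : c ≠ b := by
      intro h
      have : a = v0 := by rw [← c1, ← b1, h]
      rw [this] at a3
      omega
    have hda : d ≠ a := by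
      intro h
      have : b = v0 := by rw [← d1, ← a1, h]
      rw [this] at b3
      omega
    have heb : e ≠ b := by
      intro h
      have : c = v0 := by rw [← e1, ← b1, h]
      rw [this] at c3
      omega
    have hed : e ≠ d := by
      intro h
      exact hcb (by rw [← e1, ← d1, h])
    have hsub : ({v0, a, b, c, d, e} : Finset (Vx k)) ⊆ S := by
      intro x hx
      simp only [mem_insert, mem_singleton] at hx
      rcases hx with rfl | rfl | rfl | rfl | rfl | rfl <;> assumption
    have hWne : ∀ x y : Vx k, W x < W y → x ≠ y := by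
      rintro x y h rfl
      omega
    have hcard : #({v0, a, b, c, d, e} : Finset (Vx k)) = 6 := by
      rw [card_insert_of_notMem, card_insert_of_notMem, card_insert_of_notMem,
        card_insert_of_notMem, card_insert_of_notMem, card_singleton]
      · simp only [mem_singleton]
        exact hed.symm
      · simp only [mem_insert, mem_singleton, not_or]
        exact ⟨hcd, hWne _ _ (by omega)⟩
      · simp only [mem_insert, mem_singleton, not_or]
        exact ⟨hcb.symm, hWne _ _ (by omega), heb.symm⟩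
      · simp only [mem_insert, mem_singleton, not_or]
        exact ⟨hab, hWne _ _ (by omega), hda.symm, hWne _ _ (by omega)⟩
      · simp only [mem_insert, mem_singleton, not_or]
        exact ⟨hWne _ _ (by omega), hWne _ _ (by omega), hWne _ _ (by omega),
          hWne _ _ (by omega), hWne _ _ (by omega)⟩
    have := card_le_card hsub
    omega
  · -- everything happens in the lower parts of the blocks
    rcases v0 with w | ⟨J, p0⟩
    · exact hlow trivial
    have hp0 : 3 ≤ p0.val := by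
      by_contra h
      exact hlow (by change p0.val < 3; omega)
    have hall : ∀ v ∈ S, ∃ x : ℤ × Fin 31, v = L J x ∧ 3 ≤ x.2.val := by
      intro v hv
      have h1 := hmin v hv
      rcases v with w | ⟨J', p⟩
      · exfalso
        have hw := w.2
        have h2 : M k + p0.val * M k + J.val ≤ w.1 := h1
        nlinarith [Nat.zero_le (p0.val * M k)]
      · refine ⟨(((J' - J).val : ℤ), p), ?_, ?_⟩
        · unfold L
          simp
        · have h2 : M k + p0.val * M k + J.val ≤ M k + p.val * M k + J'.val := h1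
          have h3 := ZMod.val_lt J'
          by_contra h4
          have h5 : p.val ≤ 2 := by
            change ¬ 3 ≤ p.val at h4
            omega
          nlinarith [Nat.zero_le (J.val)]
    have hlow3 : ∀ x : ℤ × Fin 31, L J x ∈ S → 3 ≤ x.2.val := by
      intro x hx
      obtain ⟨y, hy, hy'⟩ := hall _ hx
      unfold L at hy
      simp only [Sum.inr.injEq, Prod.mk.injEq] at hy
      rw [hy.2]; exact hy'
    have stepL : ∀ x : ℤ × Fin 31, 3 ≤ x.2.val → ∀ i, nb (L J x) i = L J (stp x i) := by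
      intro x hx i
      exact nb_L J (fun h => by rw [h.1] at hx; simp at hx)
    have hx0 : L J ((0 : ℤ), p0) ∈ S := by
      have : L J ((0 : ℤ), p0) = (Sum.inr (J, p0) : Vx k) := by unfold L; simp
      rw [this]; exact hv0
    obtain ⟨i0, hi0, _⟩ := other _ hx0 (L J ((0 : ℤ), p0))
    rw [stepL _ hp0] at hi0
    obtain ⟨i1, hi1, hn1⟩ := other _ hi0 (L J ((0 : ℤ), p0))
    rw [stepL _ (hlow3 _ hi0)] at hi1 hn1
    obtain ⟨i2, hi2, hn2⟩ := other _ hi1 (L J (stp ((0 : ℤ), p0) i0))
    rw [stepL _ (hlow3 _ hi1)] at hi2 hn2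
    obtain ⟨i3, hi3, hn3⟩ := other _ hi2 (L J (stp (stp ((0 : ℤ), p0) i0) i1))
    rw [stepL _ (hlow3 _ hi2)] at hi3 hn3
    obtain ⟨i4, hi4, hn4⟩ := other _ hi3 (L J (stp (stp (stp ((0 : ℤ), p0) i0) i1) i2))
    rw [stepL _ (hlow3 _ hi3)] at hi4 hn4
    have hs := S5 p0 hp0 i0 (hlow3 _ hi0) i1 (fun h => hn1 (by rw [h])) (hlow3 _ hi1) i2
      (fun h => hn2 (by rw [h])) (hlow3 _ hi2) i3 (fun h => hn3 (by rw [h])) (hlow3 _ hi3) i4
      (fun h => hn4 (by rw [h]))
    obtain ⟨hnd, hbd⟩ := hs
    set l : List (ℤ × Fin 31) := [(0, p0), stp (0, p0) i0, stp (stp (0, p0) i0) i1,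
      stp (stp (stp (0, p0) i0) i1) i2, stp (stp (stp (stp (0, p0) i0) i1) i2) i3,
      stp (stp (stp (stp (stp (0, p0) i0) i1) i2) i3) i4] with hl
    have hmem : ∀ x ∈ l, L J x ∈ S := by
      intro x hx
      rw [hl] at hx
      simp only [List.mem_cons, List.not_mem_nil, or_false] at hx
      rcases hx with rfl | rfl | rfl | rfl | rfl | rfl <;> assumption
    have hnd' : (l.map (L J)).Nodup := by
      refine List.Nodup.map_on ?_ hnd
      intro x hx y hy hxy
      have h1 := hbd x hx
      have h2 := hbd y hy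
      exact L_inj J hxy (by omega)
    have hsub : (l.map (L J)).toFinset ⊆ S := by
      intro v hv
      rw [List.mem_toFinset, List.mem_map] at hv
      obtain ⟨x, hx, rfl⟩ := hv
      exact hmem x hx
    have hc := card_le_card hsub
    rw [List.toFinset_card_of_nodup hnd', List.length_map] at hc
    have : l.length = 6 := rfl
    omega

end Q107.Snark
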