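import Mathlib
import Pool.Agent.Q107.Snark.Girth

/-!
A verified search: every subset with at least four elements of a piece has at least six boundary
edges.
-/

namespace Q107.Snark

open Finset

abbrev Pos : Type := ℤ × Fin 31

/-- adjacency in the local model -/
def aL (x y : Pos) : Bool := decide (stp x 0 = y) || decide (stp x 1 = y) || decide (stp x 2 = y)

lemma aL_iff {x y : Pos} : aL x y = true ↔ ∃ i, stp x i = y := by
  unfold aL
  simp only [Bool.or_eq_true, decide_eq_true_eq]
  constructor
  · rintro ((h | h) | h)
    exacts [⟨0, h⟩, ⟨1, h⟩, ⟨2, h⟩]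
  · rintro ⟨i, h⟩
    rcases fin3 i with rfl | rfl | rfl
    · exact Or.inl (Or.inl h)
    · exact Or.inl (Or.inr h)
    · exact Or.inr h

/-- backtracking over all subsets -/
def go (full : List Pos) : List Pos → List Pos → List Pos → ℕ → ℕ → Bool
  | [], _, _, c, n => decide (n ≤ 3) || decide (6 ≤ c)
  | x :: l, A, B, c, n => decide (6 ≤ c) ||
      (go full l (x :: A) B (c + ((3 - full.countP (aL x)) + B.countP (aL x))) (n + 1) &&
        go full l A (x :: B) (c + A.countP (fun y => aL y x)) n)

def lower (full A B : List Pos) : ℕ :=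
  (A.map (fun x => (3 - full.countP (aL x)) + B.countP (aL x))).sum

lemma lower_cons (full A B : List Pos) (x : Pos) :
    lower full (x :: A) B = lower full A B + ((3 - full.countP (aL x)) + B.countP (aL x)) := by
  unfold lower; simp [add_comm]

lemma lower_cons' (full A B : List Pos) (x : Pos) :
    lower full A (x :: B) = lower full A B + A.countP (fun y => aL y x) := by
  unfold lower
  induction A with
  | nil => simp
  | cons a A ih =>
    rw [List.map_cons, List.sum_cons, ih, List.map_cons, List.sum_cons,
      List.countP_cons (a := x) (l := B), List.countP_cons (a := a) (l := A)]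
    ring

/-- number of boundary edges of `S` in the local model -/
def cutL (S : Finset Pos) : ℕ := ∑ x ∈ S, (3 - #{y ∈ S | aL x y = true})

lemma lower_le (full A B : List Pos) (S : Finset Pos) (hfull : full.Nodup)
    (h3 : ∀ x ∈ full, full.countP (aL x) ≤ 3) (hS : ∀ x ∈ S, x ∈ full)
    (hA : A.Nodup) (hAS : ∀ x ∈ A, x ∈ S) (hB : B.Nodup) (hBS : ∀ x ∈ B, x ∉ S)
    (hBf : ∀ x ∈ B, x ∈ full) : lower full A B ≤ cutL S := by
  classical
  unfold lower cutL
  rw [← List.sum_toFinset _ hA]
  refine le_trans (Finset.sum_le_sum (g := fun x => 3 - #{y ∈ S | aL x y = true}) ?_)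
    (Finset.sum_le_sum_of_subset (fun x hx => hAS x (List.mem_toFinset.mp hx)))
  intro x hx
  have hxS := hAS x (List.mem_toFinset.mp hx)
  have hxf := hS x hxS
  have h1 := h3 x hxf
  have h2 : #{y ∈ S | aL x y = true} + B.countP (aL x) ≤ full.countP (aL x) := by
    have e1 : B.countP (aL x) = #{y ∈ B.toFinset | aL x y = true} := by
      rw [List.countP_eq_length_filter, ← List.toFinset_card_of_nodup (hB.filter _),
        List.toFinset_filter]
    have e2 : full.countP (aL x) = #{y ∈ full.toFinset | aL x y = true} := by
      rw [List.countP_eq_length_filter, ← List.toFinset_card_of_nodup (hfull.filter _),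
        List.toFinset_filter]
    rw [e1, e2, ← card_union_of_disjoint]
    · apply card_le_card
      intro y hy
      simp only [mem_union, mem_filter, List.mem_toFinset] at hy ⊢
      rcases hy with ⟨h, h'⟩ | ⟨h, h'⟩
      · exact ⟨hS y h, h'⟩
      · exact ⟨hBf y h, h'⟩
    · rw [Finset.disjoint_left]
      intro y hy hy'
      simp only [mem_filter, List.mem_toFinset] at hy hy'
      exact hBS y hy'.1 hy.1
  omega

lemma go_sound (full : List Pos) (hfull : full.Nodup)
    (h3 : ∀ x ∈ full, full.countP (aL x) ≤ 3) (S : Finset Pos) (hS : ∀ x ∈ S, x ∈ full) :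
    ∀ (l A B : List Pos) (c n : ℕ), l.Nodup → A.Nodup → B.Nodup →
      (∀ x ∈ l, x ∉ A ∧ x ∉ B) → (∀ x ∈ A, x ∈ S) → (∀ x ∈ B, x ∉ S) → (∀ x ∈ B, x ∈ full) →
      (∀ x ∈ l, x ∈ full) → (∀ x ∈ S, x ∈ A ∨ x ∈ l) →
      c = lower full A B → n = A.length → go full l A B c n = true → #S ≤ 3 ∨ 6 ≤ cutL S := by
  intro l
  induction l with
  | nil =>
    intro A B c n _ hA hB _ hAS hBS hBf _ hSA hc hn hgo
    have hlow := lower_le full A B S hfull h3 hS hA hAS hB hBS hBf
    simp only [go, Bool.or_eq_true, decide_eq_true_eq] at hgo
    rcases hgo with h | h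
    · left
      have : S = A.toFinset := by
        ext x
        rw [List.mem_toFinset]
        constructor
        · intro hx
          rcases hSA x hx with h | h
          · exact h
          · simp at h
        · exact hAS x
      rw [this, List.toFinset_card_of_nodup hA]
      omega
    · right; omega
  | cons x l ih =>
    intro A B c n hl hA hB hlAB hAS hBS hBf hlf hSA hc hn hgo
    have hlow := lower_le full A B S hfull h3 hS hA hAS hB hBS hBf
    simp only [go, Bool.or_eq_true, decide_eq_true_eq, Bool.and_eq_true] at hgo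
    rw [List.nodup_cons] at hl
    rcases hgo with h | ⟨h1, h2⟩
    · right; omega
    · have hx := hlAB x List.mem_cons_self
      by_cases hxS : x ∈ S
      · refine ih (x :: A) B _ _ hl.2 (List.nodup_cons.mpr ⟨hx.1, hA⟩) hB ?_ ?_ hBS hBf ?_ ?_ ?_ ?_ h1
        · intro y hy
          have := hlAB y (List.mem_cons_of_mem _ hy)
          refine ⟨?_, this.2⟩
          rw [List.mem_cons, not_or]
          refine ⟨?_, this.1⟩
          rintro rfl
          exact hl.1 hy
        · intro y hy
          rcases List.mem_cons.mp hy with rfl | hy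
          · exact hxS
          · exact hAS y hy
        · intro y hy
          exact hlf y (List.mem_cons_of_mem _ hy)
        · intro y hy
          rcases hSA y hy with h | h
          · exact Or.inl (List.mem_cons_of_mem _ h)
          · rcases List.mem_cons.mp h with rfl | h
            · exact Or.inl List.mem_cons_self
            · exact Or.inr h
        · rw [lower_cons, hc]
        · simp [hn]
      · refine ih A (x :: B) _ _ hl.2 hA (List.nodup_cons.mpr ⟨hx.2, hB⟩) ?_ hAS ?_ ?_ ?_ ?_ ?_ hn h2
        · intro y hy
          have := hlAB y (List.mem_cons_of_mem _ hy)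
          refine ⟨this.1, ?_⟩
          rw [List.mem_cons, not_or]
          refine ⟨?_, this.2⟩
          rintro rfl
          exact hl.1 hy
        · intro y hy
          rcases List.mem_cons.mp hy with rfl | hy
          · exact hxS
          · exact hBS y hy
        · intro y hy
          rcases List.mem_cons.mp hy with rfl | hy
          · exact hlf y List.mem_cons_self
          · exact hBf y hy
        · intro y hy
          exact hlf y (List.mem_cons_of_mem _ hy)
        · intro y hy
          rcases hSA y hy with h | h
          · exact Or.inl h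
          · rcases List.mem_cons.mp h with rfl | h
            · exact absurd hy hxS
            · exact Or.inr h
        · rw [lower_cons', hc]

theorem search (full : List Pos) (hfull : full.Nodup)
    (h3 : ∀ x ∈ full, full.countP (aL x) ≤ 3) (hgo : go full full [] [] 0 0 = true)
    (S : Finset Pos) (hS : ∀ x ∈ S, x ∈ full) : #S ≤ 3 ∨ 6 ≤ cutL S := by
  refine go_sound full hfull h3 S hS full [] [] 0 0 hfull List.nodup_nil List.nodup_nil
    (by simp) (by simp) (by simp) (by simp) (fun x h => h) (fun x h => Or.inr (hS x h)) ?_ rfl hgo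
  simp [lower]

/-- the two kinds of pieces -/
def ls : Bool → List Pos
  | false => [(0, 2), (0, 5), (0, 6), (0, 11), (0, 12), (0, 13), (0, 14), (0, 24), (0, 26), (0, 28),
      (0, 29), (0, 30)]
  | true => [(0, 17), (0, 8), (0, 3), (0, 7), (0, 22), (0, 16), (0, 1), (0, 15), (0, 23), (0, 25),
      (0, 10), (0, 4), (0, 20), (0, 9), (0, 19), (0, 18), (0, 21), (1, 27)]

lemma ls_nodup : ∀ b, (ls b).Nodup := by decide

lemma ls_count : ∀ b, ∀ x ∈ ls b, (ls b).countP (aL x) ≤ 3 := by decide +kernel

lemma ls_go : ∀ b, go (ls b) (ls b) [] [] 0 0 = true := by decide +kernel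

lemma ls_cut : ∀ b, ((ls b).map (fun x => 3 - (ls b).countP (aL x))).sum = 6 := by decide +kernel

lemma ls_len : ∀ b, 7 ≤ (ls b).length := by decide

theorem ls_search (b : Bool) (S : Finset Pos) (hS : ∀ x ∈ S, x ∈ ls b) : #S ≤ 3 ∨ 6 ≤ cutL S :=
  search (ls b) (ls_nodup b) (ls_count b) (ls_go b) S hS

end Q107.Snark
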