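import Mathlib
import Pool.Agent.Q107.Snark.Search
import Pool.Agent.Q107.Snark.Conn

/-!
The pieces of `Gr k` used in the uncrossing argument.
-/

namespace Q107.Snark

open Finset

lemma T1 : ∀ b b' : Bool, ∀ x ∈ ls b, ∀ y ∈ ls b', x.2 = y.2 → b = b' ∧ x = y := by decide

lemma T2 : ∀ b : Bool, ∀ x ∈ ls b, x.2 ≠ 0 := by decide

lemma T3 : ∀ b : Bool, ∀ x ∈ ls b, ∀ y ∈ ls b, (x.1 - y.1).natAbs < 6 := by decide

lemma T4 : ∀ b : Bool, ∀ x ∈ ls b, ∀ i : Fin 3, -1 ≤ (stp x i).1 ∧ (stp x i).1 ≤ 2 := by decide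

lemma T4' : ∀ b : Bool, ∀ x ∈ ls b, 0 ≤ x.1 ∧ x.1 ≤ 1 := by decide

lemma T5 : ∀ b : Bool, ∀ x ∈ ls b, ∀ y ∈ ls b, ∀ i j : Fin 3, stp x i = stp y j →
    stp x i ∉ ls b → x = y := by decide +kernel

/-- the neighbours of a piece -/
def outer (b : Bool) : List Pos :=
  (ls b).flatMap (fun x => ([0, 1, 2] : List (Fin 3)).filterMap
    (fun i => if stp x i ∈ ls b then none else some (stp x i)))

lemma mem_outer {b : Bool} {x : Pos} (hx : x ∈ ls b) (i : Fin 3) (h : stp x i ∉ ls b) :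
    stp x i ∈ outer b := by
  unfold outer
  rw [List.mem_flatMap]
  refine ⟨x, hx, ?_⟩
  rw [List.mem_filterMap]
  refine ⟨i, ?_, by rw [if_neg h]⟩
  rcases fin3 i with rfl | rfl | rfl <;> simp

lemma T6 : ∀ b : Bool, ∀ z1 ∈ outer b, ∀ z2 ∈ outer b, ∀ z3 ∈ outer b, z1 ≠ z3 →
    (∃ j : Fin 3, ¬ (z1.2 = 0 ∧ j = 0) ∧ stp z1 j = z2) →
    (∃ j : Fin 3, ¬ (z2.2 = 0 ∧ j = 0) ∧ stp z2 j = z3) → False := by decide +kernel

lemma T7 : ∀ b : Bool, ∀ z ∈ outer b, ∀ j : Fin 3, -3 ≤ (stp z j).1 ∧ (stp z j).1 ≤ 3 := by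
  decide +kernel

lemma T7' : ∀ b : Bool, ∀ z ∈ outer b, -1 ≤ z.1 ∧ z.1 ≤ 2 := by decide +kernel

/-- a piece -/
def piece (k : ℕ) (i : ZMod (M k) × Bool) : Finset (Vx k) := (ls i.2).toFinset.image (L i.1)

lemma mem_piece {k : ℕ} {i : ZMod (M k) × Bool} {v : Vx k} :
    v ∈ piece k i ↔ ∃ x ∈ ls i.2, L i.1 x = v := by
  simp [piece]

lemma L_ls_inj {k : ℕ} (J : ZMod (M k)) {b : Bool} {x y : Pos} (hx : x ∈ ls b) (hy : y ∈ ls b)
    (h : L J x = L J y) : x = y := L_inj J h (T3 b x hx y hy)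

lemma card_piece {k : ℕ} (i : ZMod (M k) × Bool) : #(piece k i) = (ls i.2).length := by
  unfold piece
  rw [card_image_of_injOn, List.toFinset_card_of_nodup (ls_nodup _)]
  intro x hx y hy h
  simp only [List.coe_toFinset, Set.mem_ofPred_eq] at hx hy
  exact L_ls_inj _ hx hy h

lemma piece_disj {k : ℕ} (i j : ZMod (M k) × Bool) (h : i ≠ j) :
    Disjoint (piece k i) (piece k j) := by
  rw [Finset.disjoint_left]
  intro v hv hv'
  obtain ⟨x, hx, rfl⟩ := mem_piece.mp hv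
  obtain ⟨y, hy, hxy⟩ := mem_piece.mp hv'
  apply h
  unfold L at hxy
  simp only [Sum.inr.injEq, Prod.mk.injEq] at hxy
  obtain ⟨h1, h2⟩ := T1 _ _ x hx y hy hxy.2.symm
  subst h2
  refine Prod.ext ?_ h1
  exact (add_right_cancel hxy.1).symm

lemma nb_ls {k : ℕ} (J : ZMod (M k)) {b : Bool} {x : Pos} (hx : x ∈ ls b) (i : Fin 3) :
    nb (L J x) i = L J (stp x i) := nb_L J (fun h => T2 b x hx h.1)

lemma adj_ls {k : ℕ} (J : ZMod (M k)) {b : Bool} {x y : Pos} (hx : x ∈ ls b) (hy : y ∈ ls b) :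
    (Gr k).Adj (L J x) (L J y) ↔ aL x y = true := by
  rw [adj_iff, aL_iff]
  constructor
  · rintro ⟨i, hi⟩
    rw [nb_ls J hx] at hi
    have h1 := T4 b x hx i
    have h2 := T4' b y hy
    exact ⟨i, L_inj J hi (by omega)⟩
  · rintro ⟨i, rfl⟩
    exact ⟨i, nb_ls J hx i⟩

lemma ee_eq_sum {V : Type*} [Fintype V] [DecidableEq V] (G : SimpleGraph V) [DecidableRel G.Adj]
    (X T : Finset V) : ee G X T = ∑ u ∈ X, #{v ∈ T | G.Adj u v} := by
  unfold ee
  rw [← card_sigma]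
  refine Finset.card_nbij' (fun p => ⟨p.1, p.2⟩) (fun p => (p.1, p.2)) ?_ ?_
    (fun _ _ => rfl) (fun _ _ => rfl)
  · rintro ⟨a, b⟩ h
    simp only [coe_filter, mem_univ, true_and, Set.mem_ofPred_eq] at h
    simp [h.1, h.2.1, h.2.2]
  · rintro ⟨a, b⟩ h
    simp only [coe_sigma, Set.mem_sigma_iff, mem_coe, mem_filter] at h
    simp [h.1, h.2.1, h.2.2]

/-- cut size of a part of a piece -/
lemma cut_part {k : ℕ} (i : ZMod (M k) × Bool) (S : Finset Pos) (hS : ∀ x ∈ S, x ∈ ls i.2) :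
    cut (Gr k) (S.image (L i.1)) = cutL S ∧ #(S.image (L i.1)) = #S := by
  have hinj : Set.InjOn (L i.1) (S : Set Pos) := by
    intro x hx y hy h
    exact L_ls_inj _ (hS x hx) (hS y hy) h
  have hcard : #(S.image (L i.1)) = #S := card_image_of_injOn hinj
  refine ⟨?_, hcard⟩
  have h1 := cut_add_ee (Gr k) (fun v => degree_eq v) (S.image (L i.1))
  rw [hcard, ee_eq_sum, sum_image hinj] at h1
  have h2 : ∀ x ∈ S, #{v ∈ S.image (L i.1) | (Gr k).Adj (L i.1 x) v} = #{y ∈ S | aL x y = true} := by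
    intro x hx
    rw [filter_image, card_image_of_injOn]
    · congr 1
      apply filter_congr
      intro y hy
      exact adj_ls _ (hS x hx) (hS y hy)
    · intro a ha b hb h
      simp only [coe_filter, Set.mem_ofPred_eq] at ha hb
      exact hinj ha.1 hb.1 h
  rw [sum_congr rfl h2] at h1
  have h3 : ∀ x ∈ S, #{y ∈ S | aL x y = true} ≤ 3 := by
    intro x hx
    refine le_trans ?_ (ls_count i.2 x (hS x hx))
    rw [List.countP_eq_length_filter, ← List.toFinset_card_of_nodup ((ls_nodup i.2).filter _),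
      List.toFinset_filter]
    apply card_le_card
    intro y hy
    simp only [mem_filter, List.mem_toFinset] at hy ⊢
    exact ⟨hS y hy.1, hy.2⟩
  have h4 : cutL S + ∑ x ∈ S, #{y ∈ S | aL x y = true} = 3 * #S := by
    unfold cutL
    rw [← sum_add_distrib]
    rw [sum_congr rfl (g := fun _ => 3)]
    · simp [mul_comm]
    · intro x hx
      have := h3 x hx
      omega
  omega

lemma cut_piece {k : ℕ} (i : ZMod (M k) × Bool) : cut (Gr k) (piece k i) = 6 := by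
  have h := (cut_part i (ls i.2).toFinset (fun x hx => List.mem_toFinset.mp hx)).1
  change cut (Gr k) ((ls i.2).toFinset.image (L i.1)) = 6
  rw [h, ← ls_cut i.2]
  unfold cutL
  rw [← List.sum_toFinset _ (ls_nodup i.2)]
  apply sum_congr rfl
  intro x hx
  congr 1
  rw [List.countP_eq_length_filter, ← List.toFinset_card_of_nodup ((ls_nodup i.2).filter _),
      List.toFinset_filter]

lemma cut_sub {k : ℕ} (i : ZMod (M k) × Bool) (U : Finset (Vx k)) (hU : U ⊆ piece k i)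
    (h4 : 4 ≤ #U) : 6 ≤ cut (Gr k) U := by
  set S := (ls i.2).toFinset.filter (fun x => L i.1 x ∈ U) with hSdef
  have hS : ∀ x ∈ S, x ∈ ls i.2 := by
    intro x hx
    rw [hSdef, mem_filter, List.mem_toFinset] at hx
    exact hx.1
  have hUS : S.image (L i.1) = U := by
    ext v
    rw [mem_image]
    constructor
    · rintro ⟨x, hx, rfl⟩
      rw [hSdef, mem_filter] at hx
      exact hx.2
    · intro hv
      obtain ⟨x, hx, rfl⟩ := mem_piece.mp (hU hv)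
      refine ⟨x, ?_, rfl⟩
      rw [hSdef, mem_filter, List.mem_toFinset]
      exact ⟨hx, hv⟩
  obtain ⟨h1, h2⟩ := cut_part i S hS
  rw [hUS] at h1 h2
  rcases ls_search i.2 S hS with h | h <;> omega

lemma outer_uniq {k : ℕ} (i : ZMod (M k) × Bool) (v : Vx k) (hv : v ∉ piece k i)
    (a : Vx k) (ha : a ∈ piece k i) (b : Vx k) (hb : b ∈ piece k i) (h1 : (Gr k).Adj v a)
    (h2 : (Gr k).Adj v b) : a = b := by
  obtain ⟨x, hx, rfl⟩ := mem_piece.mp ha
  obtain ⟨y, hy, rfl⟩ := mem_piece.mp hb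
  obtain ⟨p, hp⟩ := adj_iff.mp h1.symm
  obtain ⟨q, hq⟩ := adj_iff.mp h2.symm
  rw [nb_ls _ hx] at hp
  rw [nb_ls _ hy] at hq
  have hbx := T4 _ x hx p
  have hby := T4 _ y hy q
  have hst : stp x p = stp y q := L_inj i.1 (hp.trans hq.symm) (by omega)
  have hout : stp x p ∉ ls i.2 := by
    intro hin
    apply hv
    rw [mem_piece]
    exact ⟨_, hin, hp⟩
  rw [T5 _ x hx y hy p q hst hout]

lemma exists_outer {k : ℕ} (i : ZMod (M k) × Bool) (t : Vx k) (ht : t ∉ piece k i)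
    (h : ∃ a ∈ piece k i, (Gr k).Adj t a) : ∃ z ∈ outer i.2, t = L i.1 z := by
  obtain ⟨a, ha, hadj⟩ := h
  obtain ⟨x, hx, rfl⟩ := mem_piece.mp ha
  obtain ⟨p, hp⟩ := adj_iff.mp hadj.symm
  rw [nb_ls _ hx] at hp
  refine ⟨stp x p, mem_outer hx p ?_, hp.symm⟩
  intro hin
  apply ht
  rw [mem_piece]
  exact ⟨_, hin, hp⟩

lemma adj_outer {k : ℕ} (J : ZMod (M k)) {b : Bool} {z w : Pos} (hz : z ∈ outer b)
    (hw : w ∈ outer b) (h : (Gr k).Adj (L J z) (L J w)) :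
    ∃ j : Fin 3, ¬ (z.2 = 0 ∧ j = 0) ∧ stp z j = w := by
  obtain ⟨j, hj⟩ := adj_iff.mp h
  by_cases h0 : z.2 = 0 ∧ j = 0
  · exfalso
    obtain ⟨h1, rfl⟩ := h0
    unfold L at hj
    rw [h1, nb_root] at hj
    have h6 := M_pos k
    have hlt := val_add_lt (J + (z.1 : ZMod (M k)))
    have hpb := par_bd (k := k) (w := M k + (J + (z.1 : ZMod (M k))).val) (by omega) hlt
    rw [mk_inl hpb] at hj
    simp at hj
  · refine ⟨j, h0, ?_⟩
    rw [nb_L J h0] at hj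
    have h1 := T7 b z hz j
    have h2 := T7' b w hw
    exact L_inj J hj (by omega)

lemma no_path {k : ℕ} (i : ZMod (M k) × Bool) (t1 t2 t3 : Vx k) (h1 : t1 ∉ piece k i)
    (h2 : t2 ∉ piece k i) (h3 : t3 ∉ piece k i) (hne : t1 ≠ t3) (h12 : (Gr k).Adj t1 t2)
    (h23 : (Gr k).Adj t2 t3) (e1 : ∃ a ∈ piece k i, (Gr k).Adj t1 a)
    (e2 : ∃ a ∈ piece k i, (Gr k).Adj t2 a) (e3 : ∃ a ∈ piece k i, (Gr k).Adj t3 a) : False := by
  obtain ⟨z1, hz1, rfl⟩ := exists_outer i t1 h1 e1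
  obtain ⟨z2, hz2, rfl⟩ := exists_outer i t2 h2 e2
  obtain ⟨z3, hz3, rfl⟩ := exists_outer i t3 h3 e3
  exact T6 i.2 z1 hz1 z2 hz2 z3 hz3 (fun h => hne (by rw [h]))
    (adj_outer i.1 hz1 hz2 h12) (adj_outer i.1 hz2 hz3 h23)

lemma leafyGr (k : ℕ) : Leafy (Gr k) := by
  intro S hS h5
  obtain ⟨v, hv, h⟩ := leafy S hS h5
  refine ⟨v, hv, ?_⟩
  intro a ha b hb h1 h2
  obtain ⟨i, rfl⟩ := adj_iff.mp h1
  obtain ⟨j, rfl⟩ := adj_iff.mp h2
  rw [h i j ha hb]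

end Q107.Snark
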