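import Mathlib
import Pool.Agent.Q107.Snark.Pieces

/-!
Cuts that do not split a piece.
-/

namespace Q107.Snark

open Finset

/-- seven edges for each block -/
def pr : Fin 7 → Pos × Pos
  | 0 => ((0, 11), (0, 23))
  | 1 => ((0, 12), (0, 25))
  | 2 => ((0, 2), (0, 0))
  | 3 => ((0, 0), (0, 1))
  | 4 => ((0, 17), (1, 29))
  | 5 => ((0, 15), (1, 30))
  | 6 => ((1, 27), (1, 13))

lemma pr_inj1 : ∀ l m : Fin 7, (pr l).1.2 = (pr m).1.2 → (pr l).2.2 = (pr m).2.2 → l = m := by
  decide

lemma pr_inj2 : ∀ l m : Fin 7, (pr l).1.2 = (pr m).2.2 → (pr l).2.2 = (pr m).1.2 → False := by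
  decide

lemma pr_adj0 : ∀ l : Fin 7, ∃ i : Fin 3, ¬ ((pr l).1.2 = 0 ∧ i = 0) ∧
    stp (pr l).1 i = (pr l).2 := by decide

lemma pr_adj {k : ℕ} (J : ZMod (M k)) (l : Fin 7) :
    (Gr k).Adj (L J (pr l).1) (L J (pr l).2) := by
  obtain ⟨i, hi, h⟩ := pr_adj0 l
  exact ⟨i, by rw [nb_L J hi, h]⟩

lemma L_shift {k : ℕ} (J : ZMod (M k)) (p : Fin 31) : L J (1, p) = (L (J + 1) (0, p) : Vx k) := by
  unfold L; simp

section Ring

variable {k : ℕ} (U : Finset (Vx k))

/-- number of edges of block `J`, among the seven, in the cut -/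
noncomputable def cJ (J : ZMod (M k)) : ℕ :=
  #{l : Fin 7 | ¬ (L J (pr l).1 ∈ U ↔ L J (pr l).2 ∈ U)}

lemma sum_cJ : ∑ J, cJ U J ≤ cut (Gr k) U := by
  classical
  unfold cJ
  rw [← card_sigma]
  unfold cut
  refine card_le_card_of_injOn (fun x => if L x.1 (pr x.2).1 ∈ U then
    (L x.1 (pr x.2).1, L x.1 (pr x.2).2) else (L x.1 (pr x.2).2, L x.1 (pr x.2).1)) ?_ ?_
  · rintro ⟨J, l⟩ h
    simp only [coe_sigma, Set.mem_sigma_iff, mem_coe, mem_filter, mem_univ, true_and] at h
    simp only [coe_filter, mem_univ, true_and, Set.mem_ofPred_eq]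
    split_ifs with h1
    · refine ⟨pr_adj J l, h1, ?_⟩
      intro h2
      exact h ⟨fun _ => h2, fun _ => h1⟩
    · refine ⟨(pr_adj J l).symm, ?_, h1⟩
      by_contra h2
      exact h ⟨fun h3 => absurd h3 h1, fun h3 => absurd h3 h2⟩
  · rintro ⟨J, l⟩ h ⟨J', m⟩ h' heq
    simp only at heq
    have key : ∀ a b c d : Pos, (L J a, L J b) = ((L J' c, L J' d) : Vx k × Vx k) →
        a.2 = c.2 ∧ b.2 = d.2 ∧ J + (a.1 : ZMod (M k)) = J' + (c.1 : ZMod (M k)) := by
      intro a b c d h
      unfold L at h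
      simp only [Prod.mk.injEq, Sum.inr.injEq] at h
      exact ⟨h.1.2, h.2.2, h.1.1⟩
    have fin : ∀ l m : Fin 7, l = m → (J + (((pr l).1.1 : ℤ) : ZMod (M k)) =
        J' + (((pr m).1.1 : ℤ) : ZMod (M k)) ∨ J + (((pr l).2.1 : ℤ) : ZMod (M k)) =
        J' + (((pr m).2.1 : ℤ) : ZMod (M k))) → (⟨J, l⟩ : Σ _ : ZMod (M k), Fin 7) = ⟨J', m⟩ := by
      rintro l m rfl h
      have : J = J' := by
        rcases h with h | h
        · exact add_right_cancel h
        · exact add_right_cancel h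
      rw [this]
    split_ifs at heq with h1 h2 h2
    · obtain ⟨e1, e2, e3⟩ := key _ _ _ _ heq
      exact fin l m (pr_inj1 l m e1 e2) (Or.inl e3)
    · obtain ⟨e1, e2, e3⟩ := key _ _ _ _ heq
      exact (pr_inj2 l m e1 e2).elim
    · obtain ⟨e1, e2, e3⟩ := key _ _ _ _ heq
      exact (pr_inj2 l m e2 e1).elim
    · obtain ⟨e1, e2, e3⟩ := key _ _ _ _ heq
      exact fin l m (pr_inj1 l m e2 e1) (Or.inr e3)

/-- indicator that two propositions differ -/
noncomputable def df (p q : Prop) : ℕ := by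
  classical exact if (p ↔ q) then 0 else 1

lemma cJ_ge (hU : ∀ i, piece k i ⊆ U ∨ Disjoint (piece k i) U) (J : ZMod (M k)) :
    3 * df (piece k (J, false) ⊆ U) (piece k (J, true) ⊆ U) +
      3 * df (piece k (J, true) ⊆ U) (piece k (J + 1, false) ⊆ U) ≤ cJ U J := by
  classical
  have hmem : ∀ (J : ZMod (M k)) (b : Bool) (x : Pos), x ∈ ls b →
      (L J x ∈ U ↔ piece k (J, b) ⊆ U) := by
    intro J b x hx
    have hx' : L J x ∈ piece k (J, b) := mem_piece.mpr ⟨x, hx, rfl⟩
    constructor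
    · intro h
      rcases hU (J, b) with h' | h'
      · exact h'
      · exact absurd h (Finset.disjoint_left.mp h' hx')
    · intro h; exact h hx'
  have m0 := hmem J false (0, 11) (by decide)
  have m1 := hmem J true (0, 23) (by decide)
  have m2 := hmem J false (0, 12) (by decide)
  have m3 := hmem J true (0, 25) (by decide)
  have m4 := hmem J false (0, 2) (by decide)
  have m5 := hmem J true (0, 1) (by decide)
  have m6 := hmem J true (0, 17) (by decide)
  have m7 := hmem J true (0, 15) (by decide)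
  have m8 := hmem J true (1, 27) (by decide)
  have m9 := hmem (J + 1) false (0, 29) (by decide)
  have m10 := hmem (J + 1) false (0, 30) (by decide)
  have m11 := hmem (J + 1) false (0, 13) (by decide)
  rw [← L_shift] at m9 m10 m11
  unfold cJ
  rw [card_filter, Fin.sum_univ_seven]
  change _ ≤ (if ¬ (L J (0, 11) ∈ U ↔ L J (0, 23) ∈ U) then 1 else 0) +
    (if ¬ (L J (0, 12) ∈ U ↔ L J (0, 25) ∈ U) then 1 else 0) +
    (if ¬ (L J (0, 2) ∈ U ↔ L J (0, 0) ∈ U) then 1 else 0) +
    (if ¬ (L J (0, 0) ∈ U ↔ L J (0, 1) ∈ U) then 1 else 0) +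
    (if ¬ (L J (0, 17) ∈ U ↔ L J (1, 29) ∈ U) then 1 else 0) +
    (if ¬ (L J (0, 15) ∈ U ↔ L J (1, 30) ∈ U) then 1 else 0) +
    (if ¬ (L J (1, 27) ∈ U ↔ L J (1, 13) ∈ U) then 1 else 0)
  unfold df
  by_cases hb : piece k (J, false) ⊆ U <;> by_cases he : piece k (J, true) ⊆ U <;>
    by_cases hb' : piece k (J + 1, false) ⊆ U <;> by_cases hr : L J (0, 0) ∈ U <;>
    simp [m0, m1, m2, m3, m4, m5, m6, m7, m8, m9, m10, m11, hb, he, hb', hr]

lemma df_mod (p q : Prop) : ((df p q : ℕ) : ZMod 2) = df p True + df q True := by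
  classical
  unfold df
  by_cases hp : p <;> by_cases hq : q <;> simp [hp, hq]
  all_goals rfl

lemma df_zero {p q : Prop} (h : df p q = 0) : p ↔ q := by
  classical
  unfold df at h
  split_ifs at h with h'
  · exact h'

/-- all pieces are on the same side of a small cut that splits no piece -/
lemma same_side (hU : ∀ i, piece k i ⊆ U ∨ Disjoint (piece k i) U) (h5 : cut (Gr k) U ≤ 5) :
    (∀ i, piece k i ⊆ U) ∨ (∀ i, Disjoint (piece k i) U) := by
  set T : ℕ := ∑ J : ZMod (M k), (df (piece k (J, false) ⊆ U) (piece k (J, true) ⊆ U) +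
      df (piece k (J, true) ⊆ U) (piece k (J + 1, false) ⊆ U)) with hT
  have h1 : 3 * T ≤ 5 := by
    refine le_trans ?_ h5
    refine le_trans ?_ (sum_cJ U)
    rw [hT, mul_sum]
    apply sum_le_sum
    intro J _
    have := cJ_ge U hU J
    linarith
  have h2 : ((T : ℕ) : ZMod 2) = 0 := by
    rw [hT]
    push_cast
    have : ∀ J : ZMod (M k), ((df (piece k (J, false) ⊆ U) (piece k (J, true) ⊆ U) : ℕ) : ZMod 2) +
        ((df (piece k (J, true) ⊆ U) (piece k (J + 1, false) ⊆ U) : ℕ) : ZMod 2) =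
        ((df (piece k (J, false) ⊆ U) True : ℕ) : ZMod 2) +
        ((df (piece k (J + 1, false) ⊆ U) True : ℕ) : ZMod 2) := by
      intro J
      rw [df_mod (piece k (J, false) ⊆ U) (piece k (J, true) ⊆ U),
        df_mod (piece k (J, true) ⊆ U) (piece k (J + 1, false) ⊆ U)]
      have h2 : ∀ z : ZMod 2, z + z = 0 := by decide
      generalize ((df (piece k (J, true) ⊆ U) True : ℕ) : ZMod 2) = z
      generalize ((df (piece k (J, false) ⊆ U) True : ℕ) : ZMod 2) = x
      generalize ((df (piece k (J + 1, false) ⊆ U) True : ℕ) : ZMod 2) = y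
      calc x + z + (z + y) = x + y + (z + z) := by ring
        _ = x + y := by rw [h2, add_zero]
    rw [sum_congr rfl (fun J _ => this J), sum_add_distrib]
    have h3 : ∑ J : ZMod (M k), ((df (piece k (J + 1, false) ⊆ U) True : ℕ) : ZMod 2) =
        ∑ J : ZMod (M k), ((df (piece k (J, false) ⊆ U) True : ℕ) : ZMod 2) :=
      Equiv.sum_comp (Equiv.addRight (1 : ZMod (M k)))
        (fun J => ((df (piece k (J, false) ⊆ U) True : ℕ) : ZMod 2))
    rw [h3]
    have h2 : ∀ z : ZMod 2, z + z = 0 := by decide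
    exact h2 _
  have h3 : T = 0 := by
    have : T = 0 ∨ T = 1 := by omega
    rcases this with h | h
    · exact h
    · rw [h] at h2
      exact absurd h2 (by decide)
  rw [hT, sum_eq_zero_iff] at h3
  have h4 : ∀ J : ZMod (M k), (piece k (J, false) ⊆ U ↔ piece k (J, true) ⊆ U) ∧
      (piece k (J, true) ⊆ U ↔ piece k (J + 1, false) ⊆ U) := by
    intro J
    have := h3 J (mem_univ _)
    exact ⟨df_zero (by omega), df_zero (by omega)⟩
  have h5 : ∀ n : ℕ, (piece k (((n : ℕ) : ZMod (M k)), false) ⊆ U ↔ piece k (0, false) ⊆ U) := by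
    intro n
    induction n with
    | zero => simp
    | succ n ih =>
      rw [← ih]
      push_cast
      exact ((h4 _).1.trans (h4 _).2).symm
  have h6 : ∀ J : ZMod (M k), (piece k (J, false) ⊆ U ↔ piece k (0, false) ⊆ U) := by
    intro J
    have := h5 J.val
    rwa [ZMod.natCast_val, ZMod.cast_id] at this
  have h7 : ∀ i, (piece k i ⊆ U ↔ piece k (0, false) ⊆ U) := by
    rintro ⟨J, b⟩
    cases b
    · exact h6 J
    · rw [← (h4 J).1]; exact h6 J
  by_cases h : piece k (0, false) ⊆ U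
  · left; intro i; exact (h7 i).mpr h
  · right
    intro i
    rcases hU i with h' | h'
    · exact absurd ((h7 i).mp h') h
    · exact h'

end Ring

lemma cover31 : ∀ p : Fin 31, p ≠ 0 → ∃ b : Bool, ∃ x ∈ ls b, x.2 = p := by decide

/-- vertices outside all pieces are heap vertices -/
lemma not_piece {k : ℕ} {v : Vx k} (h : ∀ i, v ∉ piece k i) : ∃ c, 2 ≤ c ∧ c < 2 * M k ∧
    v = mk k c := by
  have h6 := M_pos k
  rcases v with w | ⟨J, p⟩
  · have hw := w.2
    exact ⟨w.1, hw.1, by omega, by rw [mk_inl hw]⟩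
  · by_cases hp : p = 0
    · subst hp
      have := val_add_lt J
      exact ⟨M k + J.val, by omega, this, (mk_root J).symm⟩
    · exfalso
      obtain ⟨b, x, hx, rfl⟩ := cover31 p hp
      apply h (J - (x.1 : ZMod (M k)), b)
      rw [mem_piece]
      refine ⟨x, hx, ?_⟩
      unfold L
      simp

/-- adjacency among heap vertices -/
lemma adj_heap {k : ℕ} {c d : ℕ} (hc : 2 ≤ c) (hc' : c < 2 * M k) (hd : 2 ≤ d)
    (hd' : d < 2 * M k) (h : (Gr k).Adj (mk k c) (mk k d)) :
    (3 ≤ c ∧ d = par c) ∨ (3 ≤ d ∧ c = par d) := by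
  have h6 := M_pos k
  obtain ⟨i, hi⟩ := adj_iff.mp h
  by_cases hlt : c < M k
  · rw [mk_inl ⟨hc, hlt⟩] at hi
    change mk k (nw c i) = mk k d at hi
    have hbd := nw_bd ⟨hc, hlt⟩ i
    have := mk_inj hbd.1 hbd.2 hd hd' hi
    rcases nw_cases hc i with ⟨h1, h2, h3⟩ | ⟨h1, h2⟩
    · left; exact ⟨h1, by omega⟩
    · right; rw [this] at h1 h2; exact ⟨h1, h2.symm⟩
  · by_cases hi0 : i = 0
    · subst hi0
      rw [P_mk (by omega) hc'] at hi
      left
      have hpb := par_bd (k := k) (w := c) (by omega) hc'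
      have := mk_inj hpb.1 (by omega) hd hd' hi
      exact ⟨by omega, this.symm⟩
    · exfalso
      rw [mk_inr (by omega), nb_blk _ (fun h => hi0 h.2)] at hi
      unfold mk at hi
      split_ifs at hi with h1
      simp only [Sum.inr.injEq, Prod.mk.injEq] at hi
      have : ∀ i : Fin 3, i ≠ 0 → nbQ 0 i ≠ 0 := by decide
      exact this i hi0 hi.2

lemma tops {k : ℕ} (U : Finset (Vx k)) (hU : ∀ i, Disjoint (piece k i) U) (hne : U.Nonempty) :
    #U + 2 ≤ cut (Gr k) U := by
  classical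
  have hrep : ∀ v ∈ U, ∃ c, 2 ≤ c ∧ c < 2 * M k ∧ v = mk k c := by
    intro v hv
    apply not_piece
    intro i hi
    exact (Finset.disjoint_left.mp (hU i)) hi hv
  obtain ⟨m, hm, hmin⟩ := exists_min_image U W hne
  set good := U.filter (fun u => 3 ≤ W u ∧ nb u 0 ∈ U) with hgood
  have hg : good.card + 1 ≤ #U := by
    have hsub : good ⊆ U.erase m := by
      intro u hu
      rw [hgood, mem_filter] at hu
      rw [mem_erase]
      refine ⟨?_, hu.1⟩
      rintro rfl
      have h1 := hmin _ hu.2.2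
      have h2 := W_parent u hu.2.1
      omega
    have := card_le_card hsub
    rw [card_erase_of_mem hm] at this
    have : 0 < #U := card_pos.mpr hne
    omega
  have hee : ee (Gr k) U U ≤ good.card + good.card := by
    unfold ee
    refine le_trans (card_le_card (t := good.image (fun u => (u, nb u 0)) ∪
      good.image (fun u => (nb u 0, u))) ?_) ((card_union_le _ _).trans
        (add_le_add card_image_le card_image_le))
    rintro ⟨a, b⟩ h
    simp only [mem_filter, mem_univ, true_and] at h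
    obtain ⟨hadj, ha, hb⟩ := h
    obtain ⟨c, hc1, hc2, rfl⟩ := hrep a ha
    obtain ⟨d, hd1, hd2, rfl⟩ := hrep b hb
    rw [mem_union, mem_image, mem_image]
    rcases adj_heap hc1 hc2 hd1 hd2 hadj with ⟨h1, h2⟩ | ⟨h1, h2⟩
    · left
      refine ⟨mk k c, ?_, ?_⟩
      · rw [hgood, mem_filter, W_mk hc1 hc2, P_mk h1 hc2, ← h2]
        exact ⟨ha, h1, hb⟩
      · rw [P_mk h1 hc2, ← h2]
    · right
      refine ⟨mk k d, ?_, ?_⟩
      · rw [hgood, mem_filter, W_mk hd1 hd2, P_mk h1 hd2, ← h2]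
        exact ⟨hb, h1, ha⟩
      · rw [P_mk h1 hd2, ← h2]
  have hcu := cut_add_ee (Gr k) (fun v => degree_eq v) U
  omega

theorem base {k : ℕ} (U : Finset (Vx k)) (h5 : cut (Gr k) U ≤ 5)
    (hU : ∀ i, piece k i ⊆ U ∨ Disjoint (piece k i) U) : #U ≤ 3 ∨ #Uᶜ ≤ 3 := by
  rcases same_side U hU h5 with h | h
  · right
    by_cases hne : (Uᶜ).Nonempty
    · have := tops Uᶜ (fun i => ?_) hne
      · rw [cut_compl] at this
        omega
      · rw [Finset.disjoint_left]
        intro v hv hv'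
        exact (mem_compl.mp hv') (h i hv)
    · rw [not_nonempty_iff_eq_empty] at hne
      rw [hne]; simp
  · left
    by_cases hne : U.Nonempty
    · have := tops U h hne
      omega
    · rw [not_nonempty_iff_eq_empty] at hne
      rw [hne]; simp

theorem starGr (k : ℕ) (U : Finset (Vx k)) (h : cut (Gr k) U ≤ 5) : #U ≤ 3 ∨ #Uᶜ ≤ 3 :=
  star (Gr k) (fun v => degree_eq v) (piece k) piece_disj
    (fun i => by rw [card_piece]; exact ls_len _) cut_piece cut_sub outer_uniq no_path
    (forest (Gr k) (fun v => degree_eq v) (leafyGr k)) base U h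

theorem cycGr (k : ℕ) : CycEdgeConn (Gr k) 6 :=
  cyc_six (Gr k) (girth_six (Gr k) (leafyGr k)) (starGr k)

end Q107.Snark
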