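import Mathlib

/-!
Two finite facts about colours.
-/

namespace Q107.Snark

abbrev K : Type := ZMod 2 × ZMod 2

set_option synthInstance.maxSize 100000 in
set_option synthInstance.maxHeartbeats 4000000 in
set_option maxRecDepth 100000 in
/-- the connector of a block never has colour sum zero -/
lemma eps_ne : ∀ a : K, a ≠ 0 → ∀ f0 : K, f0 ≠ 0 → a + f0 ≠ 0 → ∀ f1 : K, f1 ≠ 0 → f0 + f1 ≠ 0 →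
    ∀ f2 : K, f2 ≠ 0 → f1 + f2 ≠ 0 → ∀ f3 : K, f3 ≠ 0 → f2 + f3 ≠ 0 →
    ∀ f4 : K, f4 ≠ 0 → f3 + f4 ≠ 0 → ∀ f5 : K, f5 ≠ 0 → f4 + f5 ≠ 0 →
    ∀ f6 : K, f6 ≠ 0 → f5 + f6 ≠ 0 → (f1 + f2) + (f5 + f6) ≠ 0 →
    ∀ f7 : K, f7 ≠ 0 → f6 + f7 ≠ 0 →
    ∀ f8 : K, f8 ≠ 0 → f7 + f8 ≠ 0 → (a + f0) + (f7 + f8) ≠ 0 →
    ∀ f9 : K, f9 ≠ 0 → f8 + f9 ≠ 0 → (f3 + f4) + (f8 + f9) ≠ 0 →
      ((f1 + f2) + (f5 + f6)) + ((f3 + f4) + (f8 + f9)) ≠ 0 →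
    ∀ f10 : K, f10 ≠ 0 → f9 + f10 ≠ 0 → (f9 + f10) + (f4 + f5) ≠ 0 →
      ((a + f0) + (f7 + f8)) + ((f9 + f10) + (f4 + f5)) ≠ 0 →
      (((a + f0) + (f7 + f8)) + ((f9 + f10) + (f4 + f5))) +
        (((f1 + f2) + (f5 + f6)) + ((f3 + f4) + (f8 + f9))) ≠ 0 →
    a + f2 + f3 + f10 ≠ 0 := by
  decide +kernel

set_option synthInstance.maxSize 100000 in
set_option synthInstance.maxHeartbeats 4000000 in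
/-- the Petersen graph has no proper 3-edge-colouring -/
lemma petersen : ∀ a0 : K, a0 ≠ 0 → ∀ a1 : K, a1 ≠ 0 → a0 + a1 ≠ 0 → ∀ a2 : K, a2 ≠ 0 →
    a1 + a2 ≠ 0 → ∀ a3 : K, a3 ≠ 0 → a2 + a3 ≠ 0 → ∀ a4 : K, a4 ≠ 0 → a3 + a4 ≠ 0 →
    ∀ a5 : K, a5 ≠ 0 → a4 + a5 ≠ 0 → a5 + a0 ≠ 0 →
    (a0 + a1) + (a3 + a4) ≠ 0 → (a1 + a2) + (a4 + a5) ≠ 0 → (a2 + a3) + (a5 + a0) ≠ 0 → False := by
  decide +kernel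

end Q107.Snark
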