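import Mathlib
import Pool.Agent.Q107.Snark.ColLem
import Pool.Agent.Q107.Snark.Girth

/-!
`Gr k` has no proper 3-edge-colouring.
-/

namespace Q107.Snark

/-- the three colours as nonzero elements of the Klein four-group -/
def kap (i : Fin 3) : K := if i = 0 then (0, 1) else if i = 1 then (1, 0) else (1, 1)

lemma kap_ne : ∀ i, kap i ≠ 0 := by decide

lemma kap_sum : ∀ i j l : Fin 3, i ≠ j → i ≠ l → j ≠ l → kap i + kap j + kap l = 0 := by decide

lemma K2 : ∀ z : K, z + z = 0 := by decide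

lemma Kadd {a b c : K} (h : a + b + c = 0) : a = b + c := by
  have h1 : a + (b + c) = 0 := by rw [← add_assoc]; exact h
  calc a = a + ((b + c) + (b + c)) := by rw [K2, add_zero]
    _ = (a + (b + c)) + (b + c) := by ring
    _ = b + c := by rw [h1, zero_add]

section

variable {k : ℕ} (φ : Sym2 (Vx k) → Fin 3)

/-- colour of the `i`-th edge at `v` -/
def C (v : Vx k) (i : Fin 3) : K := kap (φ s(v, nb v i))

lemma C_ne (v : Vx k) (i : Fin 3) : C φ v i ≠ 0 := kap_ne _

lemma C_eq {v w : Vx k} {i j : Fin 3} (h : nb v i = w) (h' : nb w j = v) : C φ v i = C φ w j := by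
  unfold C
  rw [h, h', Sym2.eq_swap]

variable (hφ : ProperEdgeColouring (Gr k) φ)

include hφ

lemma C_sum (v : Vx k) : C φ v 0 = C φ v 1 + C φ v 2 := by
  apply Kadd
  unfold C
  apply kap_sum
  · exact hφ v _ _ ⟨0, rfl⟩ ⟨1, rfl⟩ (fun h => absurd (nb_inj v h) (by decide))
  · exact hφ v _ _ ⟨0, rfl⟩ ⟨2, rfl⟩ (fun h => absurd (nb_inj v h) (by decide))
  · exact hφ v _ _ ⟨1, rfl⟩ ⟨2, rfl⟩ (fun h => absurd (nb_inj v h) (by decide))

omit hφ in
/-- edges of the block: the same edge seen from both ends -/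
lemma C_blk (J : ZMod (M k)) {p q : Fin 31} {i j : Fin 3} {d : ℤ} (h1 : ¬ (p = 0 ∧ i = 0))
    (h2 : nbQ p i = q) (h3 : nbD p i = d) (h1' : ¬ (q = 0 ∧ j = 0)) (h2' : nbQ q j = p)
    (h3' : nbD q j = -d) :
    C φ (Sum.inr (J, p)) i = C φ (Sum.inr (J + (d : ZMod (M k)), q)) j := by
  apply C_eq
  · rw [nb_blk J h1, h2, h3]
  · rw [nb_blk _ h1', h2', h3']
    simp

/-- the sum of the colours of the connector between block `J` and block `J+1` -/
def eps (J : ZMod (M k)) : K :=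
  C φ (Sum.inr (J, 15)) 2 + C φ (Sum.inr (J, 19)) 2 + C φ (Sum.inr (J, 21)) 2 +
    C φ (Sum.inr (J, 17)) 2

omit hφ in
lemma C_blk0 (J : ZMod (M k)) {p q : Fin 31} {i j : Fin 3} (h1 : ¬ (p = 0 ∧ i = 0))
    (h2 : nbQ p i = q) (h3 : nbD p i = 0) (h1' : ¬ (q = 0 ∧ j = 0)) (h2' : nbQ q j = p)
    (h3' : nbD q j = 0) : C φ (Sum.inr (J, p)) i = C φ (Sum.inr (J, q)) j := by
  have := C_blk φ J h1 h2 h3 h1' h2' (by rw [h3']; rfl)
  simpa using this

lemma C_child (J : ZMod (M k)) (p q r : Fin 31) (hp : p.val < 15) (hq : q.val = 2 * p.val + 1)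
    (hr : r.val = 2 * p.val + 2) : C φ (Sum.inr (J, p)) 0 =
      C φ (Sum.inr (J, q)) 0 + C φ (Sum.inr (J, r)) 0 := by
  rw [C_sum φ hφ]
  obtain ⟨a1, a2, a3, a4, a5⟩ := S4 p 1 hp (by decide)
  obtain ⟨b1, b2, b3, b4, b5⟩ := S4 p 2 hp (by decide)
  have eq1 : nbQ p 1 = q := Fin.ext (by rw [a2, hq]; rfl)
  have eq2 : nbQ p 2 = r := Fin.ext (by rw [b2, hr]; rfl)
  rw [eq1] at a3 a4 a5
  rw [eq2] at b3 b4 b5
  rw [C_blk0 φ J (fun h => absurd h.2 (by decide)) eq1 a1 (fun h => a5 h.1) a3 a4,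
    C_blk0 φ J (fun h => absurd h.2 (by decide)) eq2 b1 (fun h => b5 h.1) b3 b4]

omit hφ in
/-- the flats inside a block -/
lemma flats (J : ZMod (M k)) :
    C φ (Sum.inr (J, 23)) 1 = C φ (Sum.inr (J, 15)) 1 ∧
    C φ (Sum.inr (J, 19)) 1 = C φ (Sum.inr (J, 23)) 2 ∧
    C φ (Sum.inr (J, 18)) 1 = C φ (Sum.inr (J, 21)) 1 ∧
    C φ (Sum.inr (J, 20)) 1 = C φ (Sum.inr (J, 18)) 2 ∧
    C φ (Sum.inr (J, 25)) 1 = C φ (Sum.inr (J, 20)) 2 ∧
    C φ (Sum.inr (J, 16)) 1 = C φ (Sum.inr (J, 25)) 2 ∧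
    C φ (Sum.inr (J, 22)) 1 = C φ (Sum.inr (J, 16)) 2 ∧
    C φ (Sum.inr (J, 17)) 1 = C φ (Sum.inr (J, 22)) 2 ∧
    C φ (Sum.inr (J, 24)) 1 = C φ (Sum.inr (J, 29)) 1 ∧
    C φ (Sum.inr (J, 28)) 1 = C φ (Sum.inr (J, 24)) 2 ∧
    C φ (Sum.inr (J, 26)) 1 = C φ (Sum.inr (J, 28)) 2 ∧
    C φ (Sum.inr (J, 30)) 1 = C φ (Sum.inr (J, 26)) 2 := by
  refine ⟨?_, ?_, ?_, ?_, ?_, ?_, ?_, ?_, ?_, ?_, ?_, ?_⟩ <;>
    exact C_blk0 φ J (by decide) (by decide) (by decide) (by decide) (by decide) (by decide)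

omit hφ in
/-- the flats between a block and the next one -/
lemma flats' (J : ZMod (M k)) :
    C φ (Sum.inr (J + 1, 27)) 1 = C φ (Sum.inr (J, 19)) 2 ∧
    C φ (Sum.inr (J + 1, 27)) 2 = C φ (Sum.inr (J, 21)) 2 ∧
    C φ (Sum.inr (J + 1, 29)) 2 = C φ (Sum.inr (J, 17)) 2 ∧
    C φ (Sum.inr (J + 1, 30)) 2 = C φ (Sum.inr (J, 15)) 2 := by
  have key : ∀ p q : Fin 31, ∀ j : Fin 3, nbQ p 2 = q → nbD p 2 = 1 → nbQ q j = p →
      nbD q j = -1 → j ≠ 0 → C φ (Sum.inr (J + 1, q)) j = C φ (Sum.inr (J, p)) 2 := by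
    intro p q j h1 h2 h3 h4 h5
    have := C_blk φ J (fun h => absurd h.2 (by decide)) h1 h2 (fun h => h5 h.2) h3 h4
    rw [this]
    simp
  exact ⟨key 19 27 1 (by decide) (by decide) (by decide) (by decide) (by decide),
    key 21 27 2 (by decide) (by decide) (by decide) (by decide) (by decide),
    key 17 29 2 (by decide) (by decide) (by decide) (by decide) (by decide),
    key 15 30 2 (by decide) (by decide) (by decide) (by decide) (by decide)⟩

lemma eps_ne_zero (J : ZMod (M k)) : eps φ J ≠ 0 := by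
  obtain ⟨g0, g1, g4, g5, g6, g7, g8, g9, -, -, -, -⟩ := flats φ J
  obtain ⟨g2, g3, -, -⟩ := flats' φ J
  have n := C_ne φ
  have u : ∀ p : Fin 31, C φ (Sum.inr (J, p)) 0 = C φ (Sum.inr (J, p)) 1 + C φ (Sum.inr (J, p)) 2 :=
    fun p => C_sum φ hφ _
  have u27 := C_sum φ hφ (Sum.inr (J + 1, 27))
  have h27 := n (Sum.inr (J + 1, 27)) 0
  rw [u27, g2, g3] at h27
  have c7 := C_child φ hφ J 7 15 16 (by decide) (by decide) (by decide)
  have c8 := C_child φ hφ J 8 17 18 (by decide) (by decide) (by decide)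
  have c9 := C_child φ hφ J 9 19 20 (by decide) (by decide) (by decide)
  have c10 := C_child φ hφ J 10 21 22 (by decide) (by decide) (by decide)
  have c3 := C_child φ hφ J 3 7 8 (by decide) (by decide) (by decide)
  have c4 := C_child φ hφ J 4 9 10 (by decide) (by decide) (by decide)
  have c1 := C_child φ hφ J 1 3 4 (by decide) (by decide) (by decide)
  have v15 := u 15
  have v16 := u 16
  have v17 := u 17
  have v18 := u 18
  have v19 := u 19
  have v20 := u 20
  have v21 := u 21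
  have v22 := u 22
  have v23 := u 23
  have v25 := u 25
  rw [g0] at v23
  rw [g1] at v19
  rw [g4] at v18
  rw [g5] at v20
  rw [g6] at v25
  rw [g7] at v16
  rw [g8] at v22
  rw [g9] at v17
  rw [add_comm] at v15
  rw [add_comm] at v21
  rw [v15, v16] at c7
  rw [v17, v18] at c8
  rw [v19, v20] at c9
  rw [v21, v22] at c10
  rw [c7, c8] at c3
  rw [c9, c10] at c4
  rw [c3, c4] at c1
  unfold eps
  exact eps_ne _ (n _ _) _ (n _ _) (by rw [← v15]; exact n _ _) _ (n _ _)
    (by rw [← v23]; exact n _ _) _ (n _ _) (by rw [← v19]; exact n _ _) _ (n _ _) h27 _ (n _ _)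
    (by rw [← v21]; exact n _ _) _ (n _ _) (by rw [← v18]; exact n _ _) _ (n _ _)
    (by rw [← v20]; exact n _ _) (by rw [← c9]; exact n _ _) _ (n _ _)
    (by rw [← v25]; exact n _ _) _ (n _ _) (by rw [← v16]; exact n _ _)
    (by rw [← c7]; exact n _ _) _ (n _ _) (by rw [← v22]; exact n _ _)
    (by rw [← c10]; exact n _ _) (by rw [← c4]; exact n _ _) _ (n _ _)
    (by rw [← v17]; exact n _ _) (by rw [← c8]; exact n _ _) (by rw [← c3]; exact n _ _)
    (by rw [← c1]; exact n _ _)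

lemma root_colour (J : ZMod (M k)) :
    C φ (Sum.inr (J + 1, 0)) 0 = eps φ J + eps φ (J + 1) := by
  obtain ⟨g0, g1, g4, g5, g6, g7, g8, g9, g11, g12, g13, g14⟩ := flats φ (J + 1)
  obtain ⟨g2, g3, g10, g15⟩ := flats' φ J
  have u : ∀ p : Fin 31, C φ (Sum.inr (J + 1, p)) 0 =
      C φ (Sum.inr (J + 1, p)) 1 + C φ (Sum.inr (J + 1, p)) 2 := fun p => C_sum φ hφ _
  have cc := C_child φ hφ (J + 1)
  rw [cc 0 1 2 (by decide) (by decide) (by decide), cc 1 3 4 (by decide) (by decide) (by decide),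
    cc 2 5 6 (by decide) (by decide) (by decide), cc 3 7 8 (by decide) (by decide) (by decide),
    cc 4 9 10 (by decide) (by decide) (by decide), cc 5 11 12 (by decide) (by decide) (by decide),
    cc 6 13 14 (by decide) (by decide) (by decide), cc 7 15 16 (by decide) (by decide) (by decide),
    cc 8 17 18 (by decide) (by decide) (by decide), cc 9 19 20 (by decide) (by decide) (by decide),
    cc 10 21 22 (by decide) (by decide) (by decide),
    cc 11 23 24 (by decide) (by decide) (by decide),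
    cc 12 25 26 (by decide) (by decide) (by decide),
    cc 13 27 28 (by decide) (by decide) (by decide),
    cc 14 29 30 (by decide) (by decide) (by decide),
    u 15, u 16, u 17, u 18, u 19, u 20, u 21, u 22, u 23, u 24, u 25, u 26, u 27, u 28, u 29, u 30,
    g0, g1, g2, g3, g4, g5, g6, g7, g8, g9, g10, g11, g12, g13, g14, g15]
  unfold eps
  have two : (2 : K) = 0 := by decide
  linear_combination (C φ (Sum.inr (J + 1, 15)) 1 + C φ (Sum.inr (J + 1, 23)) 2 +
    C φ (Sum.inr (J + 1, 21)) 1 + C φ (Sum.inr (J + 1, 18)) 2 + C φ (Sum.inr (J + 1, 20)) 2 +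
    C φ (Sum.inr (J + 1, 25)) 2 + C φ (Sum.inr (J + 1, 16)) 2 + C φ (Sum.inr (J + 1, 22)) 2 +
    C φ (Sum.inr (J + 1, 29)) 1 + C φ (Sum.inr (J + 1, 24)) 2 + C φ (Sum.inr (J + 1, 28)) 2 +
    C φ (Sum.inr (J + 1, 26)) 2) * two

/-- colour of the edge from the heap vertex `c` to its parent -/
lemma up_step {c : ℕ} (h6 : 6 ≤ c) (hc : c < M k) :
    C φ (mk k c) 0 = C φ (mk k (2 * c)) 0 + C φ (mk k (2 * c + 1)) 0 := by
  have hM := M_cases k
  rw [C_sum φ hφ]
  congr 1
  · apply C_eq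
    · rw [mk_inl ⟨by omega, hc⟩]
      change mk k (nw c 1) = _
      rw [nw_one (by omega), if_neg (by omega)]
    · rw [P_mk (by omega) (by omega)]
      unfold par
      rw [if_neg (by omega), if_neg (by omega)]
      congr 1
      omega
  · apply C_eq
    · rw [mk_inl ⟨by omega, hc⟩]
      change mk k (nw c 2) = _
      rw [nw_tw (by omega), if_neg (by omega)]
    · rw [P_mk (by omega) (by omega)]
      unfold par
      rw [if_neg (by omega), if_neg (by omega)]
      congr 1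
      omega

lemma up_colour : ∀ i j : ℕ, i + j = k → ∀ s < 6 * 2 ^ j,
    C φ (mk k (6 * 2 ^ j + s)) 0 = eps φ (((s * 2 ^ i : ℕ) : ZMod (M k)) - 1) +
      eps φ ((((s + 1) * 2 ^ i : ℕ) : ZMod (M k)) - 1) := by
  intro i
  induction i with
  | zero =>
    intro j hj s hs
    have hj' : j = k := by omega
    subst hj'
    have h1 : mk j (6 * 2 ^ j + s) = Sum.inr ((s : ZMod (M j)), 0) := by
      rw [mk_inr (by unfold M; omega)]
      congr 3
      unfold M; omega
    rw [h1]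
    have h2 := root_colour φ hφ ((s : ZMod (M j)) - 1)
    rw [sub_add_cancel] at h2
    rw [h2]
    simp
  | succ i ih =>
    intro j hj s hs
    have hjk : j + 1 ≤ k := by omega
    have hlt : 6 * 2 ^ j + s < M k := by
      have : 2 ^ (j + 1) ≤ 2 ^ k := Nat.pow_le_pow_right (by norm_num) hjk
      unfold M
      rw [pow_succ] at this
      omega
    have h1 : 1 ≤ 2 ^ j := Nat.one_le_two_pow
    rw [up_step φ hφ (by omega) hlt]
    have e1 : 2 * (6 * 2 ^ j + s) = 6 * 2 ^ (j + 1) + 2 * s := by rw [pow_succ]; ring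
    have e2 : 6 * 2 ^ (j + 1) + 2 * s + 1 = 6 * 2 ^ (j + 1) + (2 * s + 1) := by ring
    rw [e1, e2, ih (j + 1) (by omega) (2 * s) (by rw [pow_succ]; omega),
      ih (j + 1) (by omega) (2 * s + 1) (by rw [pow_succ]; omega)]
    have e3 : 2 * s * 2 ^ i = s * 2 ^ (i + 1) := by rw [pow_succ]; ring
    have e4 : (2 * s + 1 + 1) * 2 ^ i = (s + 1) * 2 ^ (i + 1) := by rw [pow_succ]; ring
    rw [e3, e4]
    generalize eps φ (((s * 2 ^ (i + 1) : ℕ) : ZMod (M k)) - 1) = x
    generalize eps φ ((((s + 1) * 2 ^ (i + 1) : ℕ) : ZMod (M k)) - 1) = y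
    generalize eps φ ((((2 * s + 1) * 2 ^ i : ℕ) : ZMod (M k)) - 1) = z
    have two : (2 : K) = 0 := by decide
    linear_combination z * two

theorem no_colouring : False := by
  have h6 := M_pos k
  set a : ℕ → K := fun s => eps φ (((s * 2 ^ k : ℕ) : ZMod (M k)) - 1) with ha
  have hup : ∀ s < 6, C φ (mk k (6 + s)) 0 = a s + a (s + 1) := by
    intro s hs
    have := up_colour φ hφ k 0 (by omega) s (by simpa using hs)
    rw [pow_zero, mul_one] at this
    exact this
  have ha6 : a 6 = a 0 := by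
    simp only [ha]
    have : ((6 * 2 ^ k : ℕ) : ZMod (M k)) = 0 := ZMod.natCast_self (M k)
    rw [this]; simp
  have hne : ∀ s, a s ≠ 0 := fun s => eps_ne_zero φ hφ _
  have n := C_ne φ
  have hy : ∀ i < 3, C φ (mk k (3 + i)) 0 = C φ (mk k (6 + i)) 0 + C φ (mk k (9 + i)) 0 := by
    intro i hi
    rw [C_sum φ hφ]
    congr 1
    · apply C_eq
      · rw [mk_inl ⟨by omega, by omega⟩]
        change mk k (nw (3 + i) 1) = _
        rw [nw_one (by omega), if_pos (by omega)]
        congr 1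
        omega
      · rw [P_mk (by omega) (by omega)]
        unfold par
        rw [if_neg (by omega), if_pos (by omega)]
        congr 1
        omega
    · apply C_eq
      · rw [mk_inl ⟨by omega, by omega⟩]
        change mk k (nw (3 + i) 2) = _
        rw [nw_tw (by omega), if_pos (by omega)]
        congr 1
        omega
      · rw [P_mk (by omega) (by omega)]
        unfold par
        rw [if_neg (by omega), if_pos (by omega)]
        congr 1
        omega
  have u0 := hup 0 (by norm_num)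
  have u1 := hup 1 (by norm_num)
  have u2 := hup 2 (by norm_num)
  have u3 := hup 3 (by norm_num)
  have u4 := hup 4 (by norm_num)
  have u5 := hup 5 (by norm_num)
  norm_num at u0 u1 u2 u3 u4 u5
  rw [ha6] at u5
  have y0 := hy 0 (by norm_num)
  have y1 := hy 1 (by norm_num)
  have y2 := hy 2 (by norm_num)
  norm_num at y0 y1 y2
  rw [u0, u3] at y0
  rw [u1, u4] at y1
  rw [u2, u5] at y2
  exact petersen (a 0) (hne 0) (a 1) (hne 1) (by rw [← u0]; exact n _ _) (a 2) (hne 2)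
    (by rw [← u1]; exact n _ _) (a 3) (hne 3) (by rw [← u2]; exact n _ _) (a 4) (hne 4)
    (by rw [← u3]; exact n _ _) (a 5) (hne 5) (by rw [← u4]; exact n _ _)
    (by rw [← u5]; exact n _ _) (by rw [← y0]; exact n _ _) (by rw [← y1]; exact n _ _)
    (by rw [← y2]; exact n _ _)

end

end Q107.Snark
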