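import Mathlib
import Pool.Agent.Q107.Snark.Girth

/-!
The spanning tree `T_i` of `Gr k`, `i = k + 6`, and its rotational symmetry.
-/

namespace Q107.Snark

/-- order of the six chains from left to right -/
def c6 (q : ℕ) : ℕ := (2 * (q / 2) + 3 * (q % 2)) % 6

/-- heap number of the image of the `n`-th vertex at distance `d` from the centre -/
def rp : ℕ → ℕ → ℕ
  | 0, _ => 2
  | 1, n => if n = 0 then 3 else if n = 1 then 5 else 4
  | (j + 2), n => (6 + c6 (n / 2 ^ j)) * 2 ^ j + n % 2 ^ j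

lemma c6_lt (q : ℕ) : c6 q < 6 := Nat.mod_lt _ (by norm_num)

lemma c6_inj : ∀ q < 6, ∀ r < 6, c6 q = c6 r → q = r := by decide

lemma c6_turn : ∀ q < 6, c6 ((q + 2) % 6) = (c6 q + 2) % 6 := by decide

lemma rp_bd (j n : ℕ) : 6 * 2 ^ j ≤ rp (j + 2) n ∧ rp (j + 2) n < 12 * 2 ^ j := by
  have h1 := c6_lt (n / 2 ^ j)
  have h2 : 0 < 2 ^ j := Nat.two_pow_pos j
  have h3 := Nat.mod_lt n h2
  change 6 * 2 ^ j ≤ (6 + c6 (n / 2 ^ j)) * 2 ^ j + n % 2 ^ j ∧
    (6 + c6 (n / 2 ^ j)) * 2 ^ j + n % 2 ^ j < 12 * 2 ^ j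
  have h4 : 6 * 2 ^ j ≤ (6 + c6 (n / 2 ^ j)) * 2 ^ j := Nat.mul_le_mul_right _ (by omega)
  have h5 : (6 + c6 (n / 2 ^ j)) * 2 ^ j ≤ 11 * 2 ^ j := Nat.mul_le_mul_right _ (by omega)
  omega

lemma dcases (d : ℕ) : d = 0 ∨ d = 1 ∨ ∃ j, d = j + 2 := by
  rcases d with _ | _ | j
  · left; rfl
  · right; left; rfl
  · right; right; exact ⟨j, rfl⟩

lemma rp_div (j n : ℕ) : rp (j + 3) n / 2 = rp (j + 2) (n / 2) := by
  change ((6 + c6 (n / 2 ^ (j + 1))) * 2 ^ (j + 1) + n % 2 ^ (j + 1)) / 2 =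
    (6 + c6 (n / 2 / 2 ^ j)) * 2 ^ j + n / 2 % 2 ^ j
  have h1 : n / 2 / 2 ^ j = n / 2 ^ (j + 1) := by
    rw [Nat.div_div_eq_div_mul, pow_succ, mul_comm]
  have h2 : n / 2 % 2 ^ j = n % 2 ^ (j + 1) / 2 := by
    rw [pow_succ, mul_comm (2 ^ j) 2, Nat.mod_mul_right_div_self]
  rw [h1, h2, pow_succ]
  have : (6 + c6 (n / (2 ^ j * 2))) * (2 ^ j * 2) + n % (2 ^ j * 2) =
      2 * ((6 + c6 (n / (2 ^ j * 2))) * 2 ^ j) + n % (2 ^ j * 2) := by ring
  rw [this]
  omega

lemma rp_inj {d n d' n' : ℕ} (h : n < width d) (h' : n' < width d') (he : rp d n = rp d' n') :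
    d = d' ∧ n = n' := by
  have two : ∀ j n n', n < width (j + 2) → n' < width (j + 2) → rp (j + 2) n = rp (j + 2) n' →
      n = n' := by
    intro j n n' h h' he
    have hp : 0 < 2 ^ j := Nat.two_pow_pos j
    have hw : width (j + 2) = 6 * 2 ^ j := by unfold width; simp [pow_succ]; ring
    rw [hw] at h h'
    change (6 + c6 (n / 2 ^ j)) * 2 ^ j + n % 2 ^ j = (6 + c6 (n' / 2 ^ j)) * 2 ^ j + n' % 2 ^ j
      at he
    have e1 : ((6 + c6 (n / 2 ^ j)) * 2 ^ j + n % 2 ^ j) / 2 ^ j = 6 + c6 (n / 2 ^ j) := by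
      rw [mul_comm, Nat.mul_add_div hp, Nat.div_eq_of_lt (Nat.mod_lt _ hp), add_zero]
    have e2 : ((6 + c6 (n' / 2 ^ j)) * 2 ^ j + n' % 2 ^ j) / 2 ^ j = 6 + c6 (n' / 2 ^ j) := by
      rw [mul_comm, Nat.mul_add_div hp, Nat.div_eq_of_lt (Nat.mod_lt _ hp), add_zero]
    have e3 : c6 (n / 2 ^ j) = c6 (n' / 2 ^ j) := by
      rw [he] at e1
      omega
    have e4 := c6_inj _ (Nat.div_lt_of_lt_mul (by rw [mul_comm]; exact h)) _
      (Nat.div_lt_of_lt_mul (by rw [mul_comm]; exact h')) e3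
    rw [e4] at he
    have e5 : n % 2 ^ j = n' % 2 ^ j := by omega
    rw [← Nat.div_add_mod n (2 ^ j), ← Nat.div_add_mod n' (2 ^ j), e4, e5]
  have lev : ∀ j j' n n', j < j' → rp (j + 2) n ≠ rp (j' + 2) n' := by
    intro j j' n n' hlt he
    have h1 := (rp_bd j n).2
    have h2 := (rp_bd j' n').1
    have h3 : 2 ^ (j + 1) ≤ 2 ^ j' := Nat.pow_le_pow_right (by norm_num) hlt
    rw [pow_succ] at h3
    omega
  have small : ∀ j n, 6 ≤ rp (j + 2) n := by
    intro j n
    have h1 := (rp_bd j n).1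
    have h2 : 1 ≤ 2 ^ j := Nat.one_le_two_pow
    omega
  have one : ∀ n, rp 1 n = if n = 0 then 3 else if n = 1 then 5 else 4 := fun n => rfl
  have zero : ∀ n, rp 0 n = 2 := fun n => rfl
  have w0 : width 0 = 1 := rfl
  have w1 : width 1 = 3 := rfl
  rcases dcases d with rfl | rfl | ⟨j, rfl⟩ <;> rcases dcases d' with rfl | rfl | ⟨j', rfl⟩
  · rw [w0] at h h'
    exact ⟨rfl, by omega⟩
  · exfalso
    rw [zero, one] at he
    split_ifs at he <;> omega
  · exfalso
    have := small j' n'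
    rw [zero] at he
    omega
  · exfalso
    rw [zero, one] at he
    split_ifs at he <;> omega
  · rw [one, one] at he
    rw [w1] at h h'
    refine ⟨rfl, ?_⟩
    split_ifs at he <;> omega
  · exfalso
    have := small j' n'
    rw [one] at he
    split_ifs at he <;> omega
  · exfalso
    have := small j n
    rw [zero] at he
    omega
  · exfalso
    have := small j n
    rw [one] at he
    split_ifs at he <;> omega
  · rcases lt_trichotomy j j' with hlt | heq | hgt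
    · exact absurd he (lev j j' n n' hlt)
    · subst heq
      exact ⟨rfl, two j n n' h h' he⟩
    · exact absurd he.symm (lev j' j n' n hgt)

/-- image of the `n`-th vertex at distance `d` from the centre -/
def En (k d n : ℕ) : Vx k :=
  if d < k + 2 then mk k (rp d n) else
    Sum.inr (((rp d n / 2 ^ (d - (k + 2)) - M k : ℕ) : ZMod (M k)),
      Fin.ofNat 31 (2 ^ (d - (k + 2)) + rp d n % 2 ^ (d - (k + 2)) - 1))

lemma rp_low {k d : ℕ} (n : ℕ) (h : d < k + 2) : 2 ≤ rp d n ∧ rp d n < M k := by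
  have h6 := M_pos k
  rcases dcases d with rfl | rfl | ⟨j, rfl⟩
  · exact ⟨le_refl 2, by change 2 < M k; omega⟩
  · change 2 ≤ (if n = 0 then 3 else if n = 1 then 5 else 4) ∧
      (if n = 0 then 3 else if n = 1 then 5 else 4) < M k
    split_ifs <;> omega
  · have h1 := rp_bd j n
    have h2 : 1 ≤ 2 ^ j := Nat.one_le_two_pow
    have h3 : 2 ^ (j + 1) ≤ 2 ^ k := Nat.pow_le_pow_right (by norm_num) (by omega)
    rw [pow_succ] at h3
    unfold M
    omega

lemma En_low {k d n : ℕ} (h : d ≤ k + 2) : En k d n = mk k (rp d n) := by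
  unfold En
  by_cases h1 : d < k + 2
  · rw [if_pos h1]
  · have h2 : d = k + 2 := by omega
    subst h2
    rw [if_neg h1]
    have := (rp_bd k n).1
    rw [mk_inr (by unfold M; omega), Nat.sub_self, pow_zero, Nat.div_one, Nat.mod_one]
    rfl

/-- vertices of the blocks -/
lemma rp_high (k e n : ℕ) : M k ≤ rp (k + 2 + e) n / 2 ^ e ∧ rp (k + 2 + e) n / 2 ^ e < 2 * M k := by
  have h1 := rp_bd (k + e) n
  have h2 : k + 2 + e = k + e + 2 := by omega
  rw [h2]
  have hp : 0 < 2 ^ e := Nat.two_pow_pos e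
  rw [pow_add] at h1
  constructor
  · rw [Nat.le_div_iff_mul_le hp]
    unfold M
    calc 6 * 2 ^ k * 2 ^ e = 6 * (2 ^ k * 2 ^ e) := by ring
      _ ≤ _ := h1.1
  · apply Nat.div_lt_of_lt_mul
    unfold M
    calc _ < 12 * (2 ^ k * 2 ^ e) := h1.2
      _ = 2 ^ e * (2 * (6 * 2 ^ k)) := by ring

lemma En_high (k e n : ℕ) : En k (k + 2 + e) n =
    Sum.inr (((rp (k + 2 + e) n / 2 ^ e - M k : ℕ) : ZMod (M k)),
      Fin.ofNat 31 (2 ^ e + rp (k + 2 + e) n % 2 ^ e - 1)) := by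
  unfold En
  rw [if_neg (by omega)]
  have : k + 2 + e - (k + 2) = e := by omega
  rw [this]

lemma pos_val {e r : ℕ} (he : e ≤ 4) (hr : r < 2 ^ e) : (Fin.ofNat 31 (2 ^ e + r - 1)).val =
    2 ^ e + r - 1 := by
  have : 2 ^ e ≤ 2 ^ 4 := Nat.pow_le_pow_right (by norm_num) he
  rw [Fin.val_ofNat]
  apply Nat.mod_eq_of_lt
  omega

lemma En_inj {k d n d' n' : ℕ} (h : n < width d) (h' : n' < width d') (hd : d ≤ k + 6)
    (hd' : d' ≤ k + 6) (he : En k d n = En k d' n') : d = d' ∧ n = n' := by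
  by_cases h1 : d < k + 2 <;> by_cases h2 : d' < k + 2
  · rw [En_low h1.le, En_low h2.le] at he
    have a1 := rp_low n h1
    have a2 := rp_low n' h2
    exact rp_inj h h' (mk_inj a1.1 (by omega) a2.1 (by omega) he)
  · exfalso
    have a1 := rp_low n h1
    obtain ⟨e, rfl⟩ : ∃ e, d' = k + 2 + e := ⟨d' - (k + 2), by omega⟩
    rw [En_low h1.le, En_high, mk_inl a1] at he
    simp at he
  · exfalso
    have a1 := rp_low n' h2
    obtain ⟨e, rfl⟩ : ∃ e, d = k + 2 + e := ⟨d - (k + 2), by omega⟩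
    rw [En_low h2.le, En_high, mk_inl a1] at he
    simp at he
  · obtain ⟨e, rfl⟩ : ∃ e, d = k + 2 + e := ⟨d - (k + 2), by omega⟩
    obtain ⟨e', rfl⟩ : ∃ e, d' = k + 2 + e := ⟨d' - (k + 2), by omega⟩
    rw [En_high, En_high] at he
    simp only [Sum.inr.injEq, Prod.mk.injEq] at he
    obtain ⟨hJ, hp⟩ := he
    have hpe : 0 < 2 ^ e := Nat.two_pow_pos e
    have hpe' : 0 < 2 ^ e' := Nat.two_pow_pos e'
    have r1 := Nat.mod_lt (rp (k + 2 + e) n) hpe
    have r2 := Nat.mod_lt (rp (k + 2 + e') n') hpe'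
    have hp' := congrArg Fin.val hp
    rw [pos_val (by omega) r1, pos_val (by omega) r2] at hp'
    have hee : e = e' := by
      rcases lt_trichotomy e e' with hlt | heq | hgt
      · have : 2 ^ (e + 1) ≤ 2 ^ e' := Nat.pow_le_pow_right (by norm_num) hlt
        rw [pow_succ] at this
        omega
      · exact heq
      · have : 2 ^ (e' + 1) ≤ 2 ^ e := Nat.pow_le_pow_right (by norm_num) hgt
        rw [pow_succ] at this
        omega
    subst hee
    have b1 := rp_high k e n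
    have b2 := rp_high k e n'
    have hJ' := congrArg ZMod.val hJ
    rw [ZMod.val_natCast_of_lt (by omega), ZMod.val_natCast_of_lt (by omega)] at hJ'
    apply rp_inj h h'
    rw [← Nat.div_add_mod (rp (k + 2 + e) n) (2 ^ e), ← Nat.div_add_mod (rp (k + 2 + e) n') (2 ^ e)]
    have e1 : rp (k + 2 + e) n / 2 ^ e = rp (k + 2 + e) n' / 2 ^ e := by omega
    have e2 : rp (k + 2 + e) n % 2 ^ e = rp (k + 2 + e) n' % 2 ^ e := by omega
    rw [e1, e2]

/-- tree edges are edges of the graph -/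
lemma En_parent {k d n : ℕ} (hd : d + 1 ≤ k + 6) (hn : n < width (d + 1)) :
    nb (En k (d + 1) n) 0 = En k d (n / 2) ∨ d = 0 ∧ nb (En k (d + 1) n) 0 = En k 0 0 := by
  have h6 := M_pos k
  by_cases h1 : d + 1 ≤ k + 2
  · rw [En_low h1, En_low (by omega)]
    rcases dcases d with rfl | rfl | ⟨j, rfl⟩
    · right
      refine ⟨rfl, ?_⟩
      have hr := rp_low (k := k) (d := 1) n (by omega)
      have h3 : 3 ≤ rp 1 n ∧ rp 1 n < 6 := by
        change 3 ≤ (if n = 0 then 3 else if n = 1 then 5 else 4) ∧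
          (if n = 0 then 3 else if n = 1 then 5 else 4) < 6
        split_ifs <;> omega
      rw [zero_add, P_mk h3.1 (by omega), En_low (by omega)]
      unfold par
      rw [if_pos h3.2]
      rfl
    · left
      have hb := rp_bd 0 n
      rw [P_mk (by simp at hb ⊢; omega) (by simp at hb ⊢; omega)]
      congr 1
      have hn' : n < 6 := by
        have : width (1 + 1) = 6 := rfl
        omega
      change par ((6 + c6 (n / 2 ^ 0)) * 2 ^ 0 + n % 2 ^ 0) =
        if n / 2 = 0 then 3 else if n / 2 = 1 then 5 else 4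
      interval_cases n <;> decide
    · left
      have hb := rp_bd (j + 1) n
      have hj : 1 ≤ 2 ^ j := Nat.one_le_two_pow
      have h3 : 2 ^ (j + 1) ≤ 2 ^ k := Nat.pow_le_pow_right (by norm_num) (by omega)
      rw [pow_succ] at h3
      rw [pow_succ] at hb
      have hj3 : j + 2 + 1 = j + 1 + 2 := by omega
      rw [hj3] at h1 ⊢
      have hlt : rp (j + 1 + 2) n < 2 * M k := by unfold M; omega
      rw [P_mk (by omega) hlt]
      congr 1
      rw [← rp_div]
      unfold par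
      rw [if_neg (by omega), if_neg (by omega)]
  · left
    obtain ⟨e, rfl⟩ : ∃ e, d = k + 2 + e := ⟨d - (k + 2), by omega⟩
    have e1 : k + 2 + e + 1 = k + 2 + (e + 1) := by ring
    rw [e1, En_high, En_high]
    set w := rp (k + 2 + (e + 1)) n with hw
    have hdiv : rp (k + 2 + e) (n / 2) = w / 2 := by
      rw [hw]
      have a1 : k + 2 + (e + 1) = (k + e) + 3 := by ring
      have a2 : k + 2 + e = (k + e) + 2 := by ring
      rw [a1, a2, rp_div]
    rw [hdiv]
    have hpe : 0 < 2 ^ e := Nat.two_pow_pos e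
    have r1 : w % 2 ^ (e + 1) < 2 ^ (e + 1) := Nat.mod_lt _ (Nat.two_pow_pos _)
    have r2 : w / 2 % 2 ^ e < 2 ^ e := Nat.mod_lt _ hpe
    have hv1 := pos_val (by omega : e + 1 ≤ 4) r1
    have hv2 := pos_val (by omega : e ≤ 4) r2
    set p := Fin.ofNat 31 (2 ^ (e + 1) + w % 2 ^ (e + 1) - 1) with hp
    set p' := Fin.ofNat 31 (2 ^ e + w / 2 % 2 ^ e - 1) with hp'
    have hpow : 2 ^ (e + 1) = 2 ^ e * 2 := pow_succ 2 e
    have hp0 : p ≠ 0 := by
      intro h
      rw [h] at hv1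
      simp at hv1
      omega
    rw [nb_blk _ (fun h => hp0 h.1)]
    obtain ⟨s1, s2⟩ := S4' p hp0
    have hmod : w / 2 % 2 ^ e = w % 2 ^ (e + 1) / 2 := by
      rw [hpow, mul_comm (2 ^ e) 2, Nat.mod_mul_right_div_self]
    have hpp : nbQ p 0 = p' := by
      apply Fin.ext
      rw [s2, hv1, hv2, hmod]
      omega
    rw [s1, hpp]
    simp only [Int.cast_zero, add_zero, Sum.inr.injEq, Prod.mk.injEq, and_true]
    rw [Nat.div_div_eq_div_mul, hpow, mul_comm (2 ^ e) 2]

end Q107.Snark
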