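import Mathlib
import Pool.Agent.Q107.Snark.Rot
import Pool.Agent.Q107.Snark.Colour
import Pool.Agent.Q107.Snark.Base

/-!
`Gr k` is a rotation `T_(k+6)`-snark of girth at least six, cyclically 6-edge-connected.
-/

namespace Q107.Snark

open Finset

lemma sum_width (i : ℕ) : ∑ d ∈ range (i + 1), width d = 3 * 2 ^ i - 2 := by
  induction i with
  | zero => simp [width]
  | succ i ih =>
    rw [sum_range_succ, ih]
    have : width (i + 1) = 3 * 2 ^ i := by unfold width; simp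
    rw [this, pow_succ]
    have := Nat.two_pow_pos i
    omega

lemma card_TVert (i : ℕ) : Fintype.card (TVert i) = 3 * 2 ^ i - 2 := by
  rw [Fintype.card_sigma]
  simp only [Fintype.card_fin]
  rw [Fin.sum_univ_eq_sum_range (fun d => width d) (i + 1), sum_width]

lemma card_Vx (k : ℕ) : Fintype.card (Vx k) = 3 * 2 ^ (k + 6) - 2 := by
  have h6 := M_pos k
  have h1 : Fintype.card (Top k) = M k - 2 := by
    rw [Fintype.card_of_subtype (Finset.Ico 2 (M k)) (by intro x; simp)]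
    simp
  rw [Fintype.card_sum, Fintype.card_prod, h1, ZMod.card, Fintype.card_fin]
  unfold M at *
  rw [pow_add]
  omega

/-- the map from `T_(k+6)` to the vertices -/
def Ee (k : ℕ) (v : TVert (k + 6)) : Vx k := En k v.1.val v.2.val

lemma Ee_inj (k : ℕ) : Function.Injective (Ee k) := by
  rintro ⟨⟨d, hd⟩, ⟨n, hn⟩⟩ ⟨⟨d', hd'⟩, ⟨n', hn'⟩⟩ h
  obtain ⟨h1, h2⟩ := En_inj (k := k) (d := d) (n := n) (d' := d') (n' := n') hn hn' (by omega)
    (by omega) h
  subst h1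
  subst h2
  rfl

lemma Ee_bij (k : ℕ) : Function.Bijective (Ee k) := by
  rw [Fintype.bijective_iff_injective_and_card]
  refine ⟨Ee_inj k, ?_⟩
  rw [card_TVert, card_Vx]

noncomputable def Eqv (k : ℕ) : TVert (k + 6) ≃ Vx k := Equiv.ofBijective (Ee k) (Ee_bij k)

lemma child_adj (k : ℕ) (u v : TVert (k + 6)) (h : IsChild u v) :
    (Gr k).Adj (Ee k v) (Ee k u) := by
  obtain ⟨⟨d, hd⟩, ⟨n, hn⟩⟩ := u
  obtain ⟨⟨d', hd'⟩, ⟨n', hn'⟩⟩ := v
  obtain ⟨h1, h2⟩ := h
  simp only at h1 h2 hn hn'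
  subst h1
  refine ⟨0, ?_⟩
  change nb (En k (d + 1) n') 0 = En k d n
  rcases En_parent (k := k) (d := d) (n := n') (by omega) hn' with h | ⟨rfl, h⟩
  · rcases h2 with h2 | h2
    · subst h2
      have hn0 : n = 0 := by
        have : width 0 = 1 := rfl
        omega
      rw [h, hn0]
      rw [En_low (by omega), En_low (by omega)]
      rfl
    · rw [h, h2]
  · have hn0 : n = 0 := by
      have : width 0 = 1 := rfl
      omega
    rw [h, hn0]

lemma tree_adj (k : ℕ) (u v : TVert (k + 6)) (h : (TTree (k + 6)).Adj u v) :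
    (Gr k).Adj (Eqv k u) (Eqv k v) := by
  rcases h with h | h
  · exact (child_adj k u v h).symm
  · exact child_adj k v u h

/-- image of a leaf -/
lemma leaf_image (k a : ℕ) : En k (k + 6) a =
    Sum.inr (((c6 (a / 2 ^ (k + 4)) * 2 ^ k + a % 2 ^ (k + 4) / 16 : ℕ) : ZMod (M k)),
      Fin.ofNat 31 (15 + a % 16)) := by
  have h := En_high k 4 a
  rw [show k + 2 + 4 = k + 6 by omega] at h
  rw [h]
  have h1 : rp (k + 6) a = (6 + c6 (a / 2 ^ (k + 4))) * 2 ^ (k + 4) + a % 2 ^ (k + 4) := rfl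
  have h16 : 2 ^ (k + 4) = 16 * 2 ^ k := by rw [pow_add]; ring
  have h2 : rp (k + 6) a = 16 * ((6 + c6 (a / 2 ^ (k + 4))) * 2 ^ k) + a % 2 ^ (k + 4) := by
    rw [h1]
    nth_rewrite 2 [h16]
    ring
  have h3 : a % 2 ^ (k + 4) % 16 = a % 16 := by
    rw [h16, Nat.mod_mul_right_mod]
  have h4 : rp (k + 6) a / 2 ^ 4 = (6 + c6 (a / 2 ^ (k + 4))) * 2 ^ k + a % 2 ^ (k + 4) / 16 := by
    rw [h2]; norm_num; omega
  have h5 : rp (k + 6) a % 2 ^ 4 = a % 16 := by
    rw [h2]; norm_num; omega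
  rw [h4, h5]
  have h6 : 2 ^ 4 + a % 16 - 1 = 15 + a % 16 := by norm_num
  have h7 : (6 + c6 (a / 2 ^ (k + 4))) * 2 ^ k + a % 2 ^ (k + 4) / 16 - M k =
      c6 (a / 2 ^ (k + 4)) * 2 ^ k + a % 2 ^ (k + 4) / 16 := by
    unfold M
    rw [add_mul]
    omega
  rw [h6, h7]

lemma adj_shift {k : ℕ} (J J' t : ZMod (M k)) (p p' : Fin 31) (hp : p ≠ 0)
    (h : (Gr k).Adj (Sum.inr (J, p)) (Sum.inr (J', p'))) :
    (Gr k).Adj (Sum.inr (J + t, p)) (Sum.inr (J' + t, p')) := by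
  obtain ⟨i, hi⟩ := h
  refine ⟨i, ?_⟩
  rw [nb_blk _ (fun h => hp h.1)] at hi ⊢
  simp only [Sum.inr.injEq, Prod.mk.injEq] at hi ⊢
  refine ⟨?_, hi.2⟩
  rw [← hi.1]
  ring

lemma turn_image (k : ℕ) (a : Fin (width (k + 6))) :
    ∃ J : ZMod (M k), ∃ p : Fin 31, p ≠ 0 ∧ Ee k (leaf (k + 6) a) = Sum.inr (J, p) ∧
      Ee k (leaf (k + 6) (turn a)) = Sum.inr (J + ((2 * 2 ^ k : ℕ) : ZMod (M k)), p) := by
  obtain ⟨a, ha⟩ := a
  have hw : width (k + 6) = 6 * 2 ^ (k + 4) := by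
    unfold width; simp [pow_succ]; ring
  have hp : 0 < 2 ^ (k + 4) := Nat.two_pow_pos _
  have ha' : a < 6 * 2 ^ (k + 4) := by rw [← hw]; exact ha
  refine ⟨_, _, ?_, leaf_image k a, ?_⟩
  · intro h
    have := congrArg Fin.val h
    rw [Fin.val_ofNat] at this
    simp at this
    omega
  · change En k (k + 6) ((a + width (k + 6) / 3) % width (k + 6)) = _
    rw [leaf_image, hw]
    have h3 : 6 * 2 ^ (k + 4) / 3 = 2 * 2 ^ (k + 4) := by omega
    rw [h3]
    set P := 2 ^ (k + 4) with hP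
    set q := a / P with hq
    have hqlt : q < 6 := Nat.div_lt_of_lt_mul (by rw [mul_comm]; exact ha')
    have hmod : (a + 2 * P) % (6 * P) / P = (q + 2) % 6 ∧ (a + 2 * P) % (6 * P) % P = a % P := by
      have e1 : a + 2 * P = P * (q + 2) + a % P := by
        have := Nat.div_add_mod a P
        rw [← hq] at this
        nlinarith
      have e2 : (a + 2 * P) % (6 * P) = P * ((q + 2) % 6) + a % P := by
        rw [e1, mul_comm 6 P]
        have hlt := Nat.mod_lt a hp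
        by_cases h6 : q + 2 < 6
        · rw [Nat.mod_eq_of_lt h6, Nat.mod_eq_of_lt]
          nlinarith
        · have h7 : q + 2 = 6 + (q + 2) % 6 := by omega
          have h8 : P * (q + 2) + a % P = P * 6 + (P * ((q + 2) % 6) + a % P) := by
            nth_rewrite 1 [h7]
            ring
          rw [h8, Nat.add_mod_left, Nat.mod_eq_of_lt]
          have h9 : (q + 2) % 6 < 2 := by omega
          nlinarith
      rw [e2]
      constructor
      · rw [Nat.mul_add_div hp, Nat.div_eq_of_lt (Nat.mod_lt a hp), add_zero]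
      · rw [Nat.mul_add_mod, Nat.mod_mod]
    have hmod16 : (a + 2 * P) % (6 * P) % 16 = a % 16 := by
      have hP16 : P = 16 * 2 ^ k := by rw [hP, pow_add]; ring
      rw [hP16]
      have e3 : 6 * (16 * 2 ^ k) = 16 * (6 * 2 ^ k) := by ring
      rw [e3, Nat.mod_mul_right_mod]
      omega
    rw [hmod.1, hmod.2, hmod16, c6_turn q hqlt]
    congr 2
    have hM : ((6 * 2 ^ k : ℕ) : ZMod (M k)) = 0 := ZMod.natCast_self (M k)
    have hc := c6_lt q
    have e4 : c6 q * 2 ^ k + 2 * 2 ^ k = (c6 q + 2) % 6 * 2 ^ k + (c6 q + 2) / 6 * (6 * 2 ^ k) := by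
      have := Nat.div_add_mod (c6 q + 2) 6
      calc c6 q * 2 ^ k + 2 * 2 ^ k = (c6 q + 2) * 2 ^ k := by ring
        _ = (6 * ((c6 q + 2) / 6) + (c6 q + 2) % 6) * 2 ^ k := by rw [this]
        _ = _ := by ring
    have e5 : ((c6 q * 2 ^ k + 2 * 2 ^ k : ℕ) : ZMod (M k)) =
        (((c6 q + 2) % 6 * 2 ^ k + (c6 q + 2) / 6 * (6 * 2 ^ k) : ℕ) : ZMod (M k)) := by rw [e4]
    push_cast at e5 hM ⊢
    rw [hM, mul_zero, add_zero] at e5
    rw [← e5]
    ring

theorem rotation (k : ℕ) (a b : Fin (width (k + 6)))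
    (h : (Gr k).Adj (Eqv k (leaf (k + 6) a)) (Eqv k (leaf (k + 6) b))) :
    (Gr k).Adj (Eqv k (leaf (k + 6) (turn a))) (Eqv k (leaf (k + 6) (turn b))) := by
  obtain ⟨J, p, hp, h1, h2⟩ := turn_image k a
  obtain ⟨J', p', _, h1', h2'⟩ := turn_image k b
  change (Gr k).Adj (Ee k (leaf (k + 6) a)) (Ee k (leaf (k + 6) b)) at h
  change (Gr k).Adj (Ee k (leaf (k + 6) (turn a))) (Ee k (leaf (k + 6) (turn b)))
  rw [h1, h1'] at h
  rw [h2, h2']
  exact adj_shift J J' _ p p' hp h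

theorem girthGr (k : ℕ) : GirthAtLeast (Gr k) 6 := girth_six (Gr k) (leafyGr k)

theorem snarkGr (k : ℕ) : IsSnark (Gr k) where
  finite := inferInstance
  cubic := by
    intro v
    have h := degree_eq (k := k) v
    rw [← SimpleGraph.card_neighborSet_eq_degree] at h
    rw [← h, Set.ncard_eq_toFinset_card', Set.toFinset_card]
  conn := (cycGr k).mono (by norm_num)
  girth := fun v p hp => le_trans (by norm_num) (girthGr k v p hp)
  uncolourable := fun ⟨φ, hφ⟩ => no_colouring φ hφ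

theorem rotationGr (k : ℕ) : IsRotationTSnark (Gr k) (k + 6) :=
  ⟨by omega, snarkGr k, Eqv k, tree_adj k, rotation k⟩

theorem tsnarkGr (k : ℕ) : IsTSnark (Gr k) (k + 6) := ⟨snarkGr k, Eqv k, tree_adj k⟩

end Q107.Snark
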